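import Mathlib
import Pool.Agent.H977R3.CM.Aut

/-!
# Complex numbers with finitely many conjugates over an algebraically closed field
-/

namespace Pool.Agent.X299

open Polynomial

/-- A transcendental number can be translated by an automorphism. -/
lemma exists_shift {F : Type*} [Field F] (j : F →+* ℂ) {l : ℂ}
    (hl : ∀ p : F[X], p.eval₂ j l = 0 → p = 0) :
    ∃ σ : ℂ ≃+* ℂ, (∀ r, σ (j r) = j r) ∧ σ l = l + 1 := by
  let _ : Algebra F ℂ := j.toAlgebra
  have hinj : Function.Injective (eval₂RingHom j l) := by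
    rw [injective_iff_map_eq_zero]
    intro p hp
    exact hl p hp
  let J : FractionRing F[X] →+* ℂ := IsFractionRing.lift hinj
  have hJ : ∀ p : F[X], J (algebraMap F[X] (FractionRing F[X]) p) = p.eval₂ j l := fun p =>
    IsFractionRing.lift_algebraMap hinj p
  let g : FractionRing F[X] ≃+* FractionRing F[X] :=
    IsFractionRing.ringEquivOfRingEquiv (Polynomial.taylorEquiv (1 : F)).toRingEquiv
  have hg : ∀ p : F[X], g (algebraMap F[X] (FractionRing F[X]) p) =
      algebraMap F[X] (FractionRing F[X]) (Polynomial.taylor 1 p) := fun p =>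
    IsFractionRing.ringEquivOfRingEquiv_algebraMap _ p
  obtain ⟨σ, hσ⟩ := Pool.Agent.H977R3.CM.exists_aut J g
  have key : ∀ p : F[X], σ (p.eval₂ j l) = (Polynomial.taylor 1 p).eval₂ j l := by
    intro p
    rw [← hJ, hσ, hg, hJ]
  refine ⟨σ, fun r => ?_, ?_⟩
  · have h := key (C r)
    rwa [Polynomial.taylor_C, eval₂_C] at h
  · have h := key X
    rwa [Polynomial.taylor_X, eval₂_X, eval₂_add, eval₂_X, eval₂_C, map_one] at h

/-- A number with finitely many conjugates over an algebraically closed field lies in it. -/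
theorem mem_range_of_finite {F : Type*} [Field F] [IsAlgClosed F] (j : F →+* ℂ) {l : ℂ}
    (h : Set.Finite {m : ℂ | ∃ σ : ℂ ≃+* ℂ, (∀ r, σ (j r) = j r) ∧ σ l = m}) :
    ∃ r, j r = l := by
  let _ : Algebra F ℂ := j.toAlgebra
  by_cases hl : ∀ p : F[X], p.eval₂ j l = 0 → p = 0
  · exfalso
    obtain ⟨σ, h1, h2⟩ := exists_shift j hl
    have h3 : ∀ n : ℕ, l + n ∈ {m : ℂ | ∃ σ : ℂ ≃+* ℂ, (∀ r, σ (j r) = j r) ∧ σ l = m} := by
      intro n
      induction n with
      | zero => exact ⟨RingEquiv.refl ℂ, fun r => rfl, by simp⟩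
      | succ n ih =>
        obtain ⟨τ, h4, h5⟩ := ih
        refine ⟨τ.trans σ, fun r => ?_, ?_⟩
        · rw [RingEquiv.trans_apply, h4, h1]
        · rw [RingEquiv.trans_apply, h5, map_add, h2, map_natCast]
          push_cast
          ring
    refine (Set.infinite_of_injective_forall_mem (f := fun n : ℕ => l + (n : ℂ)) ?_ h3) h
    intro a b hab
    exact_mod_cast add_left_cancel hab
  · push Not at hl
    obtain ⟨p, hp, hp0⟩ := hl
    have h1 : IsAlgebraic F l := ⟨p, hp0, hp⟩
    have h3 : IsIntegral F l := h1.isIntegral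
    exact minpoly.mem_range_of_degree_eq_one F l
      (IsAlgClosed.degree_eq_one_of_irreducible F (minpoly.irreducible h3))

end Pool.Agent.X299
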