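import Pool.Agent.X299.Z.UMain
import Pool.Agent.X299.DR.AutC

/-!
# Comparison of two realisations with the same coefficients; actions of free groups
-/

open CategoryTheory AlgebraicGeometry TensorProduct Filter Topology

universe u v w

namespace Pool.Agent.X299

open Module
open Pool.Agent.H914 Pool.Agent.H914.VarClass Pool.Agent.H914.VarClass.Obj
  Pool.Agent.H914.WeilCohomology Pool.Agent.H281R3.HT Pool.Agent.TH125.Gal Pool.Agent.Y121.AH
open Pool.Agent.Y129 (pw pj PowerAction TG tateClasses CC cycRank)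
open Pool.Agent.Y133.Half (PH Sys ClassPred pwIso129)

variable {k : Type u} [Field k] {𝒱 : VarClass k} {ops : CycleOps 𝒱}

section Cmp

variable {V V' : WeilCohomology.{u, 0} ops} {M M' : Rlz V V'} {X Y Z : 𝒱.Obj}

lemma Full.ind (hM : Full M) {p : V'.H Z → Prop} (h0 : ∀ a, p (M.E Z a))
    (hadd : ∀ x y, p x → p y → p (x + y)) (hsmul : ∀ (r : V'.K) x, p x → p (r • x))
    (y : V'.H Z) : p y := by
  have hy : y ∈ Submodule.span V'.K (Set.range (M.E Z)) := by
    rw [hM.span]; exact Submodule.mem_top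
  induction hy using Submodule.span_induction with
  | mem x hx => obtain ⟨a, rfl⟩ := hx; exact h0 a
  | zero => have h := h0 0; rwa [map_zero] at h
  | add x y _ _ hx hy => exact hadd x y hx hy
  | smul r x _ hx => exact hsmul r x hx

/-- The comparison of two realisations with the same coefficients. -/
noncomputable def cmpE (hM : Full M) (hM' : Full M') (hs : ∀ r, M'.s r = M.s r) (Z : 𝒱.Obj) :
    V'.H Z ≃ₐ[V'.K] V'.H Z :=
  let _ : Algebra V.K V'.K := M.s.toAlgebra
  AlgEquiv.ofRingEquiv (f := (thE (M := M) (fun _ => rfl) hM Z).symm.trans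
    (thE (M := M') hs hM' Z)) (fun r => by
      rw [Algebra.algebraMap_eq_smul_one]
      have h1 : r • (1 : V'.H Z) = thE (M := M) (fun _ => rfl) hM Z
          ((show (baseW V V'.K).K from r) • 1) := by
        rw [thE_apply, th_smul, map_one]
      rw [h1, RingEquiv.trans_apply, RingEquiv.symm_apply_apply, thE_apply, th_smul, map_one,
        thE_apply, th_smul, map_one])

variable (hM : Full M) (hM' : Full M') (hs : ∀ r, M'.s r = M.s r)

lemma cmpE_E (a : V.H Z) : cmpE hM hM' hs Z (M.E Z a) = M'.E Z a := by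
  let _ : Algebra V.K V'.K := M.s.toAlgebra
  change thE (M := M') hs hM' Z ((thE (M := M) (fun _ => rfl) hM Z).symm (M.E Z a)) = M'.E Z a
  have h1 : M.E Z a = thE (M := M) (fun _ => rfl) hM Z (em V V'.K a) := by
    rw [thE_apply, th_em]
  rw [h1, RingEquiv.symm_apply_apply, thE_apply, th_em]

lemma cmpE_proj (i : ℕ) (y : V'.H Z) : cmpE hM hM' hs Z (H914.proj (V'.isInternal Z) i y) =
    H914.proj (V'.isInternal Z) i (cmpE hM hM' hs Z y) := by
  refine hM.ind (p := fun y => cmpE hM hM' hs Z (H914.proj (V'.isInternal Z) i y) =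
    H914.proj (V'.isInternal Z) i (cmpE hM hM' hs Z y)) ?_ ?_ ?_ y
  · intro a
    rw [← R_proj, cmpE_E, cmpE_E, R_proj]
  · intro x y hx hy; simp only [map_add, hx, hy]
  · intro r x hx; simp only [map_smul, hx]

lemma cmpE_gr {i : ℕ} {y : V'.H Z} (hy : y ∈ V'.gr Z i) : cmpE hM hM' hs Z y ∈ V'.gr Z i := by
  have h1 := cmpE_proj hM hM' hs i y
  rw [proj_same _ hy] at h1
  rw [h1]
  exact proj_mem _ _ _

lemma cmpE_symm_gr {i : ℕ} {y : V'.H Z} (hy : y ∈ V'.gr Z i) :
    (cmpE hM hM' hs Z).symm y ∈ V'.gr Z i := by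
  have h1 := cmpE_proj hM hM' hs i ((cmpE hM hM' hs Z).symm y)
  rw [AlgEquiv.apply_symm_apply, proj_same _ hy] at h1
  have h2 : (cmpE hM hM' hs Z).symm y =
      H914.proj (V'.isInternal Z) i ((cmpE hM hM' hs Z).symm y) := by
    apply (cmpE hM hM' hs Z).injective
    rw [h1, AlgEquiv.apply_symm_apply]
  rw [h2]
  exact proj_mem _ _ _

lemma cmpE_map (f : Y ⟶ Z) (y : V'.H Z) : cmpE hM hM' hs Y (V'.map f y) =
    V'.map f (cmpE hM hM' hs Z y) := by
  refine hM.ind (p := fun y => cmpE hM hM' hs Y (V'.map f y) =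
    V'.map f (cmpE hM hM' hs Z y)) ?_ ?_ ?_ y
  · intro a
    rw [← M.nat, cmpE_E, cmpE_E, M'.nat]
  · intro x y hx hy; simp only [map_add, hx, hy]
  · intro r x hx; simp only [map_smul, hx]

lemma cmpE_tr (y : V'.H Z) : V'.tr Z (cmpE hM hM' hs Z y) =
    (M'.c / M.c) ^ Z.dim * V'.tr Z y := by
  refine hM.ind (p := fun y => V'.tr Z (cmpE hM hM' hs Z y) =
    (M'.c / M.c) ^ Z.dim * V'.tr Z y) ?_ ?_ ?_ y
  · intro a
    rw [cmpE_E, hM.tr, hM'.tr, div_pow, hs]
    field_simp [pow_ne_zero Z.dim M.ne]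
  · intro x y hx hy; simp only [map_add, hx, hy, mul_add]
  · intro r x hx
    simp only [map_smul, hx, smul_eq_mul]
    ring

lemma cmpE_cl (hc : CycR M) (hc' : CycR M') {j : ℕ} {z : Z.Cycles} (hz : Z.IsCyc j z) :
    cmpE hM hM' hs Z (V'.cl Z z) = (M'.c / M.c) ^ j • V'.cl Z z := by
  have h1 : V'.cl Z z = (M.c ^ j)⁻¹ • M.E Z (V.cl Z z) := by
    rw [hc hz, smul_smul, inv_mul_cancel₀ (pow_ne_zero _ M.ne), one_smul]
  conv_lhs => rw [h1]
  rw [map_smul, cmpE_E, hc' hz, smul_smul, div_pow, inv_mul_eq_div]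

end Cmp

section Comp

variable {V V' V'' : WeilCohomology.{u, 0} ops} {N : Rlz V' V''} {M : Rlz V V'}

lemma Full.comp' (hN : Full N) (hM : Full M) : Full (Rlz.comp' N M) where
  span Z := by
    rw [eq_top_iff]
    rintro y -
    refine hN.ind (p := fun y => y ∈ Submodule.span V''.K (Set.range ((Rlz.comp' N M).E Z)))
      ?_ (fun x y hx hy => Submodule.add_mem _ hx hy) (fun r x hx => Submodule.smul_mem _ _ hx) y
    intro x
    refine hM.ind (p := fun x => N.E Z x ∈
      Submodule.span V''.K (Set.range ((Rlz.comp' N M).E Z))) ?_ ?_ ?_ x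
    · intro a; exact Submodule.subset_span ⟨a, rfl⟩
    · intro x y hx hy; rw [map_add]; exact Submodule.add_mem _ hx hy
    · intro r x hx; rw [N.semi]; exact Submodule.smul_mem _ _ hx
  tr Z a := by
    rw [comp'_apply, hN.tr, hM.tr, map_mul, map_pow]
    change _ = (N.c * N.s M.c) ^ Z.dim * N.s (M.s (V.tr Z a))
    rw [mul_pow]
    ring

lemma CycR.comp' (hN : CycR N) (hM : CycR M) : CycR (Rlz.comp' N M) := by
  intro Z j z hz
  rw [comp'_apply, hM hz, N.semi, hN hz, smul_smul]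
  change _ = (N.c * N.s M.c) ^ j • V''.cl Z z
  rw [map_pow, mul_pow, mul_comm]

end Comp

section Psi

variable (T : HodgeTheory ops) {L : Type} [Field L] [Algebra T.W.K L] (τ : L →+* ℂ)

lemma psiR_em {Z : 𝒱.Obj} (a : T.W.H Z) : (psiR T τ).E Z (em T.W L a) = em T.W ℂ a :=
  psi_em _ a

lemma psiR_full : Full (psiR T τ) where
  span Z := by
    rw [eq_top_iff]
    rintro x -
    refine tmul_ind (p := fun x => x ∈ Submodule.span (CW T).K
      (Set.range ((psiR T τ).E Z))) ?_ ?_ ?_ x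
    · exact Submodule.zero_mem _
    · intro x y hx hy; exact Submodule.add_mem _ hx hy
    · intro l a
      rw [tmul_eq]
      exact Submodule.smul_mem _ _ (Submodule.subset_span ⟨_, psiR_em T τ a⟩)
  tr Z a := by
    rw [psiR_tr]
    change _ = 1 ^ Z.dim * _
    rw [one_pow, one_mul]

lemma psiR_cyc : CycR (psiR T τ) := by
  intro Z j z _
  have h1 : (baseW T.W L).cl Z z = em T.W L (T.W.cl Z z) := rfl
  have h2 : (CW T).cl Z z = em T.W ℂ (T.W.cl Z z) := rfl
  rw [h1, h2, psiR_em]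
  change _ = 1 ^ j • _
  rw [one_pow, one_smul]

lemma psiR_s (l : L) : (psiR T τ).s (show (baseW T.W L).K from l) = (show (CW T).K from τ l) := rfl

end Psi

section Free

variable {V : WeilCohomology.{u, v} ops} {X : 𝒱.Obj} {S : Type w} {c : S → V.Kˣ}
  {e : S → ∀ n, V.H (pw X n) ≃ₐ[V.K] V.H (pw X n)}

/-- The action of a free group. -/
noncomputable def freeAct (e : S → ∀ n, V.H (pw X n) ≃ₐ[V.K] V.H (pw X n)) (n : ℕ) :
    FreeGroup S →* (V.H (pw X n) ≃ₐ[V.K] V.H (pw X n)) := FreeGroup.lift fun s => e s n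

lemma freeAct_of (s : S) (n : ℕ) : freeAct e n (FreeGroup.of s) = e s n := by
  rw [freeAct, FreeGroup.lift_apply_of]

/-- A free group acts. -/
theorem powerAction_free
    (hgr : ∀ s n i, ∀ a ∈ V.gr (pw X n) i, e s n a ∈ V.gr (pw X n) i)
    (hgr' : ∀ s n i, ∀ a ∈ V.gr (pw X n) i, (e s n).symm a ∈ V.gr (pw X n) i)
    (htr : ∀ s n a, V.tr (pw X n) (e s n a) = (c s : V.K) ^ (pw X n).dim * V.tr (pw X n) a)
    (hcl : ∀ s n (j : ℕ) (z : (pw X n).Cycles), (pw X n).IsCyc j z →
      e s n (V.cl (pw X n) z) = (c s : V.K) ^ j • V.cl (pw X n) z)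
    (hproj : ∀ s n i a, e s n (V.map (pj X n i) a) = V.map (pj X n i) (e s 0 a)) :
    PowerAction V X (FreeGroup.lift c) (freeAct e) := by
  have key : ∀ (P : FreeGroup S → Prop), P 1 → (∀ s, P (FreeGroup.of s)) →
      (∀ x, P x → P x⁻¹) → (∀ x y, P x → P y → P (x * y)) → ∀ g, P g := by
    intro P h1 h2 h3 h4 g
    exact FreeGroup.induction_on g h1 h2 (fun s hs => h3 _ hs) h4
  have hinv : ∀ x : FreeGroup S, ((FreeGroup.lift c x⁻¹ : V.Kˣ) : V.K) =
      ((FreeGroup.lift c x : V.Kˣ) : V.K)⁻¹ := fun x => by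
    rw [map_inv, Units.val_inv_eq_inv_val]
  have hG : ∀ g : FreeGroup S, ∀ n i, ∀ a ∈ V.gr (pw X n) i,
      freeAct e n g a ∈ V.gr (pw X n) i := by
    intro g n i
    refine (key (fun g => (∀ a ∈ V.gr (pw X n) i, freeAct e n g a ∈ V.gr (pw X n) i) ∧
      (∀ a ∈ V.gr (pw X n) i, freeAct e n g⁻¹ a ∈ V.gr (pw X n) i)) ?_ ?_ ?_ ?_ g).1
    · rw [inv_one, map_one]; exact ⟨fun a ha => ha, fun a ha => ha⟩
    · intro s
      rw [map_inv, freeAct_of]
      exact ⟨hgr s n i, hgr' s n i⟩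
    · rintro x ⟨h1, h2⟩
      rw [inv_inv]
      exact ⟨h2, h1⟩
    · rintro x y ⟨h1, h2⟩ ⟨h3, h4⟩
      rw [mul_inv_rev, map_mul, map_mul]
      exact ⟨fun a ha => h1 _ (h3 a ha), fun a ha => h4 _ (h2 a ha)⟩
  have hT : ∀ g : FreeGroup S, ∀ n a, V.tr (pw X n) (freeAct e n g a) =
      (FreeGroup.lift c g : V.K) ^ (pw X n).dim * V.tr (pw X n) a := by
    intro g n
    refine key (fun g => ∀ a, V.tr (pw X n) (freeAct e n g a) =
      (FreeGroup.lift c g : V.K) ^ (pw X n).dim * V.tr (pw X n) a) ?_ ?_ ?_ ?_ g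
    · intro a; rw [map_one, map_one, Units.val_one, one_pow, one_mul]; rfl
    · intro s a
      rw [freeAct_of, FreeGroup.lift_apply_of, htr]
    · intro x hx a
      have h1 := hx (freeAct e n x⁻¹ a)
      have h2 : freeAct e n x (freeAct e n x⁻¹ a) = a := by
        rw [← AlgEquiv.mul_apply, ← map_mul, mul_inv_cancel, map_one]; rfl
      rw [h2] at h1
      rw [h1, hinv, inv_pow, ← mul_assoc,
        inv_mul_cancel₀ (pow_ne_zero _ (Units.ne_zero _)), one_mul]
    · intro x y hx hy a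
      rw [map_mul, AlgEquiv.mul_apply, hx, hy, map_mul, Units.val_mul, mul_pow, mul_assoc]
  have hC : ∀ g : FreeGroup S, ∀ n (j : ℕ) (z : (pw X n).Cycles), (pw X n).IsCyc j z →
      freeAct e n g (V.cl (pw X n) z) = (FreeGroup.lift c g : V.K) ^ j • V.cl (pw X n) z := by
    intro g n j z hz
    refine key (fun g => freeAct e n g (V.cl (pw X n) z) =
      (FreeGroup.lift c g : V.K) ^ j • V.cl (pw X n) z) ?_ ?_ ?_ ?_ g
    · rw [map_one, map_one, Units.val_one, one_pow, one_smul]; rfl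
    · intro s
      rw [freeAct_of, FreeGroup.lift_apply_of, hcl s n j z hz]
    · intro x hx
      apply (freeAct e n x).injective
      have h2 : freeAct e n x (freeAct e n x⁻¹ (V.cl (pw X n) z)) = V.cl (pw X n) z := by
        rw [← AlgEquiv.mul_apply, ← map_mul, mul_inv_cancel, map_one]; rfl
      rw [h2, map_smul, hx, smul_smul, hinv, inv_pow,
        inv_mul_cancel₀ (pow_ne_zero _ (Units.ne_zero _)), one_smul]
    · intro x y hx hy
      rw [map_mul, AlgEquiv.mul_apply, hy, map_smul, hx, map_mul, Units.val_mul, mul_pow,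
        smul_smul, mul_comm]
  have hP : ∀ g : FreeGroup S, ∀ n i a, freeAct e n g (V.map (pj X n i) a) =
      V.map (pj X n i) (freeAct e 0 g a) := by
    intro g n i
    refine key (fun g => ∀ a, freeAct e n g (V.map (pj X n i) a) =
      V.map (pj X n i) (freeAct e 0 g a)) ?_ ?_ ?_ ?_ g
    · intro a; rw [map_one, map_one]; rfl
    · intro s a
      rw [freeAct_of, freeAct_of, hproj]
    · intro x hx a
      apply (freeAct e n x).injective
      have h2 : ∀ n (b : V.H (pw X n)), freeAct e n x (freeAct e n x⁻¹ b) = b := by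
        intro n b
        rw [← AlgEquiv.mul_apply, ← map_mul, mul_inv_cancel, map_one]; rfl
      exact (h2 n _).trans ((hx _).trans (congrArg (V.map (pj X n i)) (h2 0 a))).symm
    · intro x y hx hy a
      have h1 : freeAct e n (x * y) (V.map (pj X n i) a) =
        freeAct e n x (freeAct e n y (V.map (pj X n i) a)) := by rw [map_mul]; rfl
      have h2 : freeAct e 0 (x * y) a = freeAct e 0 x (freeAct e 0 y a) := by rw [map_mul]; rfl
      exact h1.trans ((congrArg (freeAct e n x) (hy a)).trans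
        ((hx _).trans (congrArg (V.map (pj X n i)) h2.symm)))
  refine ⟨fun n => ⟨fun g i a ha => hG g n i a ha, fun g a => hT g n a, ?_, ?_⟩,
    fun n i g a => hP g n i a⟩
  · rintro g j _ ⟨z, hz, rfl⟩
    exact ⟨_, ⟨z, hz, rfl⟩, hC g n j z hz⟩
  · rintro j _ ⟨z, hz, rfl⟩
    exact ⟨⊤, inferInstance, fun g _ => hC g n j z hz⟩

end Free

end Pool.Agent.X299
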