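import Pool.Agent.X299.DR.Law

/-!
# Change of the coefficients, and the identity
-/

open CategoryTheory AlgebraicGeometry TensorProduct Filter Topology

universe u v w

namespace Pool.Agent.X299

open Module
open Pool.Agent.H914 Pool.Agent.H914.VarClass Pool.Agent.H914.VarClass.Obj
  Pool.Agent.H914.WeilCohomology Pool.Agent.H281R3.HT Pool.Agent.TH125.Gal Pool.Agent.Y121.AH
open Pool.Agent.Y129 (pw pj PowerAction TG tateClasses CC cycRank nontrivial_pw one_algSpan)
open Pool.Agent.Y133.Half (PH Sys ClassPred pwIso129)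
open Pool.Agent.W536.RR

variable {k : Type u} [Field k] {𝒱 : VarClass k} {ops : CycleOps 𝒱}

section Coef

/-- The extension of the coefficients as a realisation. -/
noncomputable def exR (W : WeilCohomology.{u, 0} ops) (L : Type) [Field L] [Algebra W.K L] :
    Rlz W (baseW W L) where
  s := (algebraMap W.K L : W.K →+* L)
  c := 1
  ne := one_ne_zero
  E Z := (Algebra.TensorProduct.includeRight : W.H Z →ₐ[W.K] L ⊗[W.K] W.H Z).toRingHom
  semi Z r a := em_smul (W := W) (L := L) r a
  gr h := em_gr h
  nat f b := (em_map f b).symm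
  push f a := by
    rw [one_pow, one_pow, one_smul, one_smul]
    exact (em_push f a).symm

variable {W : WeilCohomology.{u, 0} ops} {L : Type} [Field L] [Algebra W.K L]

lemma exR_apply (Z : 𝒱.Obj) (a : W.H Z) : (exR W L).E Z a = em W L a := rfl

variable (W L) in
lemma exR_full : Full (exR W L) where
  span Z := by
    rw [eq_top_iff]
    rintro x -
    refine tmul_ind (p := fun x => x ∈ Submodule.span (baseW W L).K
      (Set.range ((exR W L).E Z))) ?_ ?_ ?_ x
    · exact Submodule.zero_mem _
    · intro x y hx hy; exact Submodule.add_mem _ hx hy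
    · intro l a
      rw [tmul_eq]
      exact Submodule.smul_mem _ _ (Submodule.subset_span ⟨_, rfl⟩)
  tr Z a := by
    rw [exR_apply, em_tr]
    change _ = 1 ^ Z.dim * _
    rw [one_pow, one_mul]
    rfl

variable (W L) in
lemma exR_cyc : CycR (exR W L) := by
  intro Z j z _
  change em W L (W.cl Z z) = 1 ^ j • (baseW W L).cl Z z
  rw [one_pow, one_smul]
  rfl

/-- The identity. -/
noncomputable def idR (W : WeilCohomology.{u, 0} ops) : Rlz W W where
  s := RingHom.id _
  c := 1
  ne := one_ne_zero
  E Z := RingHom.id _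
  semi Z r a := rfl
  gr h := h
  nat f b := rfl
  push f a := by rw [one_pow, one_pow]; rfl

variable (W) in
lemma idR_full : Full (idR W) where
  span Z := by
    rw [eq_top_iff]
    rintro x -
    exact Submodule.subset_span ⟨x, rfl⟩
  tr Z a := by
    change _ = 1 ^ Z.dim * _
    rw [one_pow, one_mul]
    rfl

variable (W) in
lemma idR_cyc : CycR (idR W) := by
  intro Z j z _
  change _ = 1 ^ j • _
  rw [one_pow, one_smul]
  rfl

end Coef

section Rank

variable {V V' : WeilCohomology.{u, 0} ops} {M : Rlz V V'}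

/-- The dimension of the span of the images. -/
lemma finrank_image (hM : Full M) {Z : 𝒱.Obj} (U : Submodule V.K (V.H Z)) :
    finrank V'.K (Submodule.span V'.K (M.E Z '' (U : Set (V.H Z)))) = finrank V.K U := by
  let _ : Algebra V.K V'.K := M.s.toAlgebra
  have hs : ∀ r, M.s r = algebraMap V.K V'.K r := fun _ => rfl
  have _ : FiniteDimensional V.K (V.H Z) := V.finite Z
  rw [← Pool.Agent.Y129.finrank_baseChange V'.K U]
  let e : (V'.K ⊗[V.K] V.H Z) ≃ₗ[V'.K] V'.H Z :=
    { (thE hs hM Z).toAddEquiv with
      map_smul' := fun l x => th_smul M hs Z l x }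
  have he : ∀ x : (baseW V V'.K).H Z, e x = th M hs Z x := fun x => rfl
  have h1 : (U.baseChange V'.K).map (e : (V'.K ⊗[V.K] V.H Z) →ₗ[V'.K] V'.H Z) =
      Submodule.span V'.K (M.E Z '' (U : Set (V.H Z))) := by
    apply le_antisymm
    · rintro _ ⟨x, hx, rfl⟩
      exact th_base hs hx
    · rw [Submodule.span_le]
      rintro _ ⟨a, ha, rfl⟩
      exact ⟨_, Submodule.tmul_mem_baseChange_of_mem (1 : V'.K) ha, th_em M hs Z a⟩
  rw [← h1]
  exact LinearEquiv.finrank_map_eq e _

end Rank

section Cmp

variable {V V' : WeilCohomology.{u, 0} ops} {L : Type} [Field L] [Algebra V.K L]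
  [Algebra V'.K L] (C : Comparison (baseW V L) (baseW V' L))

/-- The realisation given by a comparison isomorphism. -/
noncomputable def cmR : Rlz V (baseW V' L) where
  s := (C.s : (baseW V L).K →+* (baseW V' L).K).comp (algebraMap V.K L)
  c := C.c
  ne := C.ne
  E Z := ((C.e Z : (baseW V L).H Z →+* (baseW V' L).H Z)).comp ((exR V L).E Z)
  semi Z r a := by
    change C.e Z (em V L (r • a)) = C.s (ex V L r) • C.e Z (em V L a)
    rw [em_smul, C.semi]
  gr {Z i a} ha := by
    change C.e Z (em V L a) ∈ _
    exact C.gr.2 (em_gr ha)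
  nat {Y Z} f b := by
    change C.e Y (em V L (V.map f b)) = (baseW V' L).map f (C.e Z (em V L b))
    rw [← C.nat, em_map]
  push {Y Z} f a := by
    change C.c ^ Y.dim • C.e Z (em V L (V.push f a)) =
      C.c ^ Z.dim • (baseW V' L).push f (C.e Y (em V L a))
    rw [← C.push, em_push]

lemma cmR_apply (Z : 𝒱.Obj) (a : V.H Z) : (cmR C).E Z a = C.e Z (em V L a) := rfl

lemma cmR_full : Full (cmR C) where
  span Z := by
    rw [eq_top_iff]
    rintro y -
    obtain ⟨x, rfl⟩ := (C.e Z).surjective y
    refine tmul_ind (p := fun x => C.e Z x ∈ Submodule.span (baseW V' L).K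
      (Set.range ((cmR C).E Z))) ?_ ?_ ?_ x
    · rw [map_zero]; exact Submodule.zero_mem _
    · intro x y hx hy; rw [map_add]; exact Submodule.add_mem _ hx hy
    · intro l a
      rw [tmul_eq, C.semi]
      exact Submodule.smul_mem _ _ (Submodule.subset_span ⟨a, rfl⟩)
  tr Z a := by
    rw [cmR_apply, C.tr, em_tr]
    rfl

lemma cmR_cyc : CycR (cmR C) := by
  intro Z j z hz
  exact C.cyc hz

end Cmp

end Pool.Agent.X299
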