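import Pool.Agent.X299.DR.Coef

/-!
# The laws for de Rham-Betti classes: the core
-/

open CategoryTheory AlgebraicGeometry TensorProduct Filter Topology

universe u v w

namespace Pool.Agent.X299

open Module
open Pool.Agent.H914 Pool.Agent.H914.VarClass Pool.Agent.H914.VarClass.Obj
  Pool.Agent.H914.WeilCohomology Pool.Agent.H281R3.HT Pool.Agent.TH125.Gal Pool.Agent.Y121.AH
open Pool.Agent.Y129 (pw pj PowerAction TG tateClasses CC cycRank nontrivial_pw one_algSpan)
open Pool.Agent.Y133.Half (PH Sys ClassPred pwIso129)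
open Pool.Agent.W536.RR

variable {k : Type u} [Field k] {𝒱 : VarClass k} {ops : CycleOps 𝒱} {T : HodgeTheory ops}

/-- The homomorphism from the rational coefficients. -/
noncomputable def ratRing (T : HodgeTheory ops) (L : Type) [Field L] (τ : L →+* ℂ) :
    T.W.K →+* L :=
  have _ : CharZero T.W.K := (algebraMap T.W.K ℂ).charZero
  have _ : CharZero L := τ.charZero
  (Rat.castHom L).comp (RingEquiv.ofBijective (Rat.castHom T.W.K)
    ⟨(Rat.castHom T.W.K).injective, fun r => T.rat r⟩).symm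

variable {V' : WeilCohomology.{u, 0} ops} [Algebra T.W.K V'.K] {R : Rlz V' (CW T)} (hR : Full R)
  (hc : CycR R) {X : 𝒱.Obj} {I : Type v} (θ : I → Place.{u, w} T X)

/-- The places. -/
noncomputable def pls : Option (Option (Option I)) → Place.{u, w} T X
  | none => trivPlace (idR_full T.W) (idR_cyc T.W) ⟨(algebraMap T.W.K ℂ : T.W.K →+* ℂ)⟩ X PUnit
  | some none =>
    trivPlace (exR_full T.W V'.K) (exR_cyc T.W V'.K) ⟨(show V'.K →+* ℂ from R.s)⟩ X PUnit
  | some (some none) => drPlace hR hc X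
  | some (some (some i)) => θ i

/-- The classes which are Hodge classes, de Rham-Betti classes and Tate classes at all places. -/
def IsCom (R : Rlz V' (CW T)) (θ : I → Place.{u, w} T X) (n j : ℕ) (x : T.W.H (pw X n)) : Prop :=
  IsHodge T (pw X n) j x ∧ (∃ y, R.E (pw X n) y = R.c ^ j • em T.W ℂ x) ∧
    ∀ i, (θ i).E.E _ x ∈ tateClasses (θ i).χ ((θ i).V.gr (pw X n)) ((θ i).ρ n) j

lemma uloc_pls [IsAlgClosed V'.K] {n j : ℕ} {x : T.W.H (pw X n)} :
    (uloc (pls hR hc θ) n).P j x ↔ IsCom R θ n j x := by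
  rw [uloc_iff, IsCom]
  constructor
  · rintro ⟨h1, h2⟩
    exact ⟨h1, dr_of_tate hR (h2 (some (some none))), fun i => h2 (some (some (some i)))⟩
  · rintro ⟨h1, h2, h3⟩
    refine ⟨h1, fun i => ?_⟩
    match i with
    | none => exact triv_tate T.W h1.1
    | some none =>
      exact triv_tate (baseW T.W V'.K) ((exR T.W V'.K).gr h1.1)
    | some (some none) => exact tate_of_dr hR h1.1 h2
    | some (some (some i)) => exact h3 i

variable [Nontrivial (T.W.H X)] [IsAlgClosed V'.K]

/-- **The law for rational de Rham-Betti classes.** -/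
theorem rdr_law : (∀ n j x, (rdrPred hc).P (pw X n) j x → IsCom R θ n j x) ∨
    Tendsto (fun n => (finrank T.W.K (UU (pls hR hc θ) n) : ℝ) /
      finrank T.W.K ((rdrPred hc).sp (pw X n))) atTop (𝓝 0) := by
  have hUS : ∀ n, (US (pls hR hc θ) none n : Submodule T.W.K (T.W.H (pw X n))) =
      UU (pls hR hc θ) n := by
    intro n
    have h1 : (US (pls hR hc θ) none n : Submodule T.W.K (T.W.H (pw X n))) =
        Submodule.span T.W.K ((fun x => x) '' (UU (pls hR hc θ) n : Set (T.W.H (pw X n)))) := rfl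
    rw [h1, Set.image_id', Submodule.span_eq]
  have hle : ∀ n, (US (pls hR hc θ) none n : Submodule T.W.K (T.W.H (pw X n))) ≤
      (rdrPred hc).sp (pw X n) := by
    intro n
    have h0 : UU (pls hR hc θ) n ≤ (rdrPred hc).sp (pw X n) := by
      rw [UU_eq_span, Submodule.span_le]
      rintro x ⟨j, hx⟩
      rw [uloc_pls] at hx
      exact ClassPred.sp_of (rdr_iff.2 ⟨hx.1.1, hx.2.1⟩)
    exact (hUS n).le.trans h0
  rcases pred_or (pls hR hc θ) none (rdrPred hc) hle with h | h
  · left
    intro n j x hx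
    have h1 : x ∈ UU (pls hR hc θ) n := by
      rw [← hUS]
      exact (h n).symm ▸ ClassPred.sp_of hx
    have h2 := UU_proj h1 j
    rw [proj_same _ ((rdrPred hc).gr hx)] at h2
    exact (uloc_pls hR hc θ).1 h2
  · exact Or.inr h

omit [Nontrivial (T.W.H X)] [IsAlgClosed V'.K] in
variable (R) in
/-- The de Rham-Betti classes with coefficients. -/
noncomputable def kdrPred (hc : CycR R) : ClassPred (baseW T.W V'.K) :=
  drPred (psiR T (show V'.K →+* ℂ from R.s)) R (psiR_cyc T _) hc (fun r => ⟨r, rfl⟩)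

omit [Nontrivial (T.W.H X)] [IsAlgClosed V'.K] in
lemma kdr_iff {Z : 𝒱.Obj} {j : ℕ} {x : (baseW T.W V'.K).H Z} :
    (kdrPred R hc).P Z j x ↔ x ∈ (baseW T.W V'.K).gr Z (2 * j) ∧ ∃ y, R.E Z y =
      R.c ^ j • (psiR T (show V'.K →+* ℂ from R.s)).E Z x := by
  have h1 : (R.c / (psiR T (show V'.K →+* ℂ from R.s)).c) = R.c := div_one _
  change _ ∧ (∃ y, R.E Z y = (R.c / (psiR T (show V'.K →+* ℂ from R.s)).c) ^ j •
    (psiR T (show V'.K →+* ℂ from R.s)).E Z x) ↔ _
  rw [h1]

/-- **The law for de Rham-Betti classes with coefficients.** -/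
theorem kdr_law :
    (∀ n j (x : (baseW T.W V'.K).H (pw X n)), (kdrPred R hc).P (pw X n) j x →
      x ∈ Submodule.span (baseW T.W V'.K).K ((exR T.W V'.K).E _ '' {c | IsCom R θ n j c})) ∨
    Tendsto (fun n => (finrank T.W.K (UU (pls hR hc θ) n) : ℝ) /
      finrank (baseW T.W V'.K).K ((kdrPred R hc).sp (pw X n))) atTop (𝓝 0) := by
  have hle : ∀ n, US (pls hR hc θ) (some none) n ≤ (kdrPred R hc).sp (pw X n) := by
    intro n
    have h0 : ∀ x ∈ UU (pls hR hc θ) n, (exR T.W V'.K).E _ x ∈ (kdrPred R hc).sp (pw X n) := by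
      intro x hx
      rw [UU_eq_span] at hx
      induction hx using Submodule.span_induction with
      | mem x hx =>
        obtain ⟨j, hx⟩ := hx
        rw [uloc_pls] at hx
        obtain ⟨y, hy⟩ := hx.2.1
        refine ClassPred.sp_of ((kdr_iff hc).2 ⟨em_gr hx.1.1, y, hy.trans ?_⟩)
        exact congrArg (fun z => R.c ^ j • z)
          (psiR_em T (show V'.K →+* ℂ from R.s) x).symm
      | zero => rw [map_zero]; exact Submodule.zero_mem _
      | add x y _ _ hx hy => rw [map_add]; exact Submodule.add_mem _ hx hy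
      | smul r x _ hx => rw [(exR T.W V'.K).semi]; exact Submodule.smul_mem _ _ hx
    exact Submodule.span_le.2 (by rintro _ ⟨x, hx, rfl⟩; exact h0 x hx)
  rcases pred_or (pls hR hc θ) (some none) (kdrPred R hc) hle with h | h
  · left
    intro n j x hx
    have h1 : x ∈ US (pls hR hc θ) (some none) n := (h n).symm ▸ ClassPred.sp_of hx
    have h2 := US_homog h1 ((kdrPred R hc).gr hx)
    have h3 : {c | (uloc (pls hR hc θ) n).P j c} = {c | IsCom R θ n j c} :=
      Set.ext fun c => uloc_pls hR hc θ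
    rw [h3] at h2
    exact h2
  · exact Or.inr h

end Pool.Agent.X299
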