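import Pool.Agent.X299.DR.PDefs

/-!
# Ranks of groups of cycles, and the quotients: definitions
-/

open CategoryTheory AlgebraicGeometry

open scoped ENNReal

universe u v w

namespace Pool.Agent.X299

open Pool.Agent.H914 Pool.Agent.H914.VarClass Pool.Agent.H914.VarClass.Obj
  Pool.Agent.H914.WeilCohomology Pool.Agent.Y129 Pool.Agent.Y121.AHS

variable {k : Type u} [Field k] {𝒱 : VarClass k} {ops : CycleOps 𝒱}

/-- The rational class `x` of degree `2 j` is a de Rham-Betti class and a Hodge class. -/
def IsHDR {T : HodgeTheory ops} (P : Periods T) (Z : 𝒱.Obj) (j : ℕ) (x : T.W.H Z) : Prop :=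
  IsDRB P Z j x ∧ IsHodge T Z j x

/-- The classes of algebraic cycles. -/
def IsCycClass (T : HodgeTheory ops) (Z : 𝒱.Obj) (j : ℕ) (x : T.W.H Z) : Prop :=
  ∃ z, Z.IsCyc j z ∧ T.W.cl Z z = x

/-- The rank of the intersection form on the classes of algebraic cycles, that is the rank of the
group of cycles modulo numerical equivalence. -/
noncomputable def cycleRank (T : HodgeTheory ops) (Z : 𝒱.Obj) : ℕ :=
  gramRank (T.W.tr Z) {x | ∃ j, IsCycClass T Z j x}

/-- The quotient of the dimension of the space of the de Rham-Betti classes with coefficients on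
the product of `n + 1` copies of `X` and of the rank of the group of cycles modulo numerical
equivalence. -/
noncomputable def overRatio {T : HodgeTheory ops} (P : Periods T) (X : 𝒱.Obj) (n : ℕ) : ℝ≥0∞ :=
  (dimAll P.U.K (IsDRBOver P (pw X n)) : ℝ≥0∞) / cycleRank T (pw X n)

end Pool.Agent.X299
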