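import Pool.Agent.X299.DR.Place

/-!
# The law for systems of classes which contain the universal classes; de Rham-Betti classes
-/

open CategoryTheory AlgebraicGeometry TensorProduct Filter Topology

universe u v w

namespace Pool.Agent.X299

open Module
open Pool.Agent.H914 Pool.Agent.H914.VarClass Pool.Agent.H914.VarClass.Obj
  Pool.Agent.H914.WeilCohomology Pool.Agent.H281R3.HT Pool.Agent.TH125.Gal Pool.Agent.Y121.AH
open Pool.Agent.Y129 (pw pj PowerAction TG tateClasses CC cycRank)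
open Pool.Agent.Y133.Half (PH Sys ClassPred pwIso129)
open Pool.Agent.W536.RR

variable {k : Type u} [Field k] {𝒱 : VarClass k} {ops : CycleOps 𝒱}

section Pred

variable {V V' V'' : WeilCohomology.{u, 0} ops}

/-- The classes whose images in `V''` are, up to the twists, images of classes in `V'`. -/
noncomputable def drPred (M : Rlz V V'') (R : Rlz V' V'') (hM : CycR M) (hR : CycR R)
    (hs : ∀ r, ∃ r', R.s r' = M.s r) : ClassPred V where
  P Z j x := x ∈ V.gr Z (2 * j) ∧ ∃ y, R.E Z y = (R.c / M.c) ^ j • M.E Z x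
  gr h := h.1
  zero := ⟨Submodule.zero_mem _, 0, by rw [map_zero, map_zero, smul_zero]⟩
  add {Z j a b} ha hb := by
    obtain ⟨h1, y, hy⟩ := ha
    obtain ⟨h2, y', hy'⟩ := hb
    exact ⟨Submodule.add_mem _ h1 h2, y + y', by rw [map_add, map_add, hy, hy', smul_add]⟩
  smul {Z j} r a ha := by
    obtain ⟨h1, y, hy⟩ := ha
    obtain ⟨r', hr'⟩ := hs r
    exact ⟨Submodule.smul_mem _ _ h1, r' • y, by rw [R.semi, M.semi, hy, hr', smul_comm]⟩
  cl {Z j z} hz := ⟨V.cl_mem hz, V'.cl Z z, by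
    rw [hR hz, hM hz, smul_smul, ← mul_pow, div_mul_cancel₀ _ M.ne]⟩
  mul {Z i j a b} ha hb := by
    obtain ⟨h1, y, hy⟩ := ha
    obtain ⟨h2, y', hy'⟩ := hb
    refine ⟨by rw [mul_add]; exact V.mul_mem h1 h2, y * y', ?_⟩
    rw [map_mul, map_mul, hy, hy', smul_mul_smul_comm, pow_add]
  map {Y Z} f j a ha := by
    obtain ⟨h1, y, hy⟩ := ha
    exact ⟨V.map_mem f h1, V'.map f y, by rw [R.nat, M.nat, hy, map_smul]⟩
  push {Y Z} f j l hd a ha := by
    obtain ⟨h1, y, hy⟩ := ha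
    refine ⟨?_, V'.push f y, ?_⟩
    · have h2 := V.push_mem f h1
      have e1 : ((2 * j : ℕ) : ℤ) + 2 * ((Z.dim : ℤ) - Y.dim) = ((2 * l : ℕ) : ℤ) := by
        push_cast
        omega
      rwa [e1, grZ_natCast] at h2
    · have hR0 := R.ne
      have hM0 := M.ne
      have h2 := R.push f y
      have h3 := M.push f a
      rw [hy, map_smul] at h2
      have hc : (R.c ^ Y.dim * M.c ^ Z.dim) ≠ 0 :=
        mul_ne_zero (pow_ne_zero _ hR0) (pow_ne_zero _ hM0)
      apply smul_right_injective _ hc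
      have e2 : (R.c ^ Y.dim * M.c ^ Z.dim) • R.E Z (V'.push f y) =
          M.c ^ Z.dim • (R.c ^ Z.dim • (R.c / M.c) ^ j • V''.push f (M.E Y a)) := by
        rw [← h2, smul_smul, mul_comm]
      have e3 : M.c ^ Z.dim • (R.c ^ Z.dim • (R.c / M.c) ^ j • V''.push f (M.E Y a)) =
          (R.c ^ Z.dim * (R.c / M.c) ^ j) • (M.c ^ Y.dim • M.E Z (V.push f a)) := by
        rw [h3]
        simp only [smul_smul]
        congr 1
        ring
      have e4 : R.c ^ Z.dim * (R.c / M.c) ^ j * M.c ^ Y.dim =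
          R.c ^ Y.dim * M.c ^ Z.dim * (R.c / M.c) ^ l := by
        have a1 : R.c ^ Z.dim * R.c ^ j = R.c ^ Y.dim * R.c ^ l := by
          rw [← pow_add, ← pow_add]; congr 1; omega
        have a2 : M.c ^ Y.dim * M.c ^ l = M.c ^ j * M.c ^ Z.dim := by
          rw [← pow_add, ← pow_add]; congr 1; omega
        have hMj : M.c ^ j ≠ 0 := pow_ne_zero _ hM0
        have hMl : M.c ^ l ≠ 0 := pow_ne_zero _ hM0
        rw [div_pow, div_pow, mul_div_assoc', a1, div_mul_eq_mul_div, mul_div_assoc',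
          div_eq_div_iff hMj hMl]
        linear_combination (R.c ^ Y.dim * R.c ^ l) * a2
      beta_reduce
      rw [e2, e3, smul_smul, smul_smul, e4]

end Pred

section Place

variable {T : HodgeTheory ops} {V' : WeilCohomology.{u, 0} ops} {R : Rlz V' (CW T)}

lemma rat_scalars (r : T.W.K) : ∃ r' : V'.K, R.s r' = (emR T).s r := by
  obtain ⟨q, hq⟩ := T.rat r
  exact ⟨(q : V'.K), by rw [map_ratCast, ← hq, map_ratCast]⟩

/-- The rational de Rham-Betti classes. -/
noncomputable def rdrPred (hR : CycR R) : ClassPred T.W :=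
  drPred (emR T) R (emR_cyc T) hR rat_scalars

lemma rdr_iff {hR : CycR R} {Z : 𝒱.Obj} {j : ℕ} {x : T.W.H Z} :
    (rdrPred hR).P Z j x ↔ x ∈ T.W.gr Z (2 * j) ∧ ∃ y, R.E Z y = R.c ^ j • em T.W ℂ x := by
  have h1 : (R.c / (emR T).c) = R.c := div_one _
  change _ ∧ (∃ y, R.E Z y = (R.c / (emR T).c) ^ j • em T.W ℂ x) ↔ _
  rw [h1]

/-- De Rham-Betti classes are fixed by the operators. -/
lemma tate_of_dr (hR : Full R) {X : 𝒱.Obj} {n j : ℕ} {x : T.W.H (pw X n)}
    (hx : x ∈ T.W.gr (pw X n) (2 * j)) (h : ∃ y, R.E (pw X n) y = R.c ^ j • em T.W ℂ x) :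
    em T.W ℂ x ∈ tateClasses (FreeGroup.lift (drC.{u, w} R)) ((CW T).gr (pw X n))
      (freeAct (drE.{u, w} hR X) n) j := by
  obtain ⟨v, hv⟩ := h
  refine ⟨em_gr hx, ⊤, inferInstance, fun g _ => ?_⟩
  have hgen : ∀ σ : Gc.{u, w} R, drE hR X σ n (em T.W ℂ x) = (drC R σ : (CW T).K) ^ j • em T.W ℂ x := by
    intro σ
    have hc : R.c ^ j ≠ 0 := pow_ne_zero _ R.ne
    have h1 : em T.W ℂ x = (R.c ^ j)⁻¹ • R.E _ v := by
      rw [hv, smul_smul, inv_mul_cancel₀ hc, one_smul]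
    have h2 : drE hR X σ n (em T.W ℂ x) = (R.c ^ j)⁻¹ • (conj R σ).E _ v := by
      conv_lhs => rw [h1]
      rw [map_smul, drE_apply]
    have h3 : (conj R σ).E _ v = (conj R σ).c ^ j • em T.W ℂ x := by
      rw [conj_E, hv, (psiR T (σ.down.1 : ℂ →+* ℂ)).semi, psiR_em, map_pow]
      congr 2
      exact (conj_c R σ).symm
    rw [h2, h3, smul_smul]
    congr 1
    change _ = ((conj R σ).c / R.c) ^ j
    rw [div_pow, inv_mul_eq_div]
  have key : ∀ (P : FreeGroup (Gc.{u, w} R) → Prop), P 1 → (∀ s, P (FreeGroup.of s)) →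
      (∀ x, P x → P x⁻¹) → (∀ x y, P x → P y → P (x * y)) → ∀ g, P g := by
    intro P h1 h2 h3 h4 g
    exact FreeGroup.induction_on g h1 h2 (fun s hs => h3 _ hs) h4
  refine key (fun g => freeAct (drE.{u, w} hR X) n g (em T.W ℂ x) =
    ((FreeGroup.lift (drC.{u, w} R) g : (CW T).Kˣ) : (CW T).K) ^ j • em T.W ℂ x) ?_ ?_ ?_ ?_ g
  · rw [map_one, map_one, Units.val_one, one_pow, one_smul]; rfl
  · intro σ
    rw [freeAct_of, FreeGroup.lift_apply_of, hgen]
  · intro g hg
    apply (freeAct (drE.{u, w} hR X) n g).injective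
    have h2 : freeAct (drE.{u, w} hR X) n g (freeAct (drE.{u, w} hR X) n g⁻¹ (em T.W ℂ x)) = em T.W ℂ x := by
      rw [← AlgEquiv.mul_apply, ← map_mul, mul_inv_cancel, map_one]; rfl
    have h3 : ((FreeGroup.lift (drC.{u, w} R) g⁻¹ : (CW T).Kˣ) : (CW T).K) =
        ((FreeGroup.lift (drC.{u, w} R) g : (CW T).Kˣ) : (CW T).K)⁻¹ := by
      rw [map_inv, Units.val_inv_eq_inv_val]
    rw [h2, map_smul, hg, smul_smul, h3, inv_pow,
      inv_mul_cancel₀ (pow_ne_zero _ (Units.ne_zero _)), one_smul]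
  · intro g g' hg hg'
    rw [map_mul, AlgEquiv.mul_apply, hg', map_smul, hg, map_mul, Units.val_mul, mul_pow,
      smul_smul, mul_comm]

end Place

section Triv

variable {T : HodgeTheory ops} {V : WeilCohomology.{u, 0} ops}

/-- The trivial action. -/
lemma trivAct (V : WeilCohomology.{u, v} ops) (X : 𝒱.Obj) (Γ : Type w) [Group Γ] :
    PowerAction V X (1 : Γ →* V.Kˣ) (fun _ => 1) := by
  refine ⟨fun n => ⟨fun g i a ha => ha, fun g a => ?_, ?_, ?_⟩, fun n i g a => rfl⟩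
  · rw [MonoidHom.one_apply, MonoidHom.one_apply, Units.val_one, one_pow, one_mul]; rfl
  · rintro g j c hc
    refine ⟨c, hc, ?_⟩
    rw [MonoidHom.one_apply, MonoidHom.one_apply, Units.val_one, one_pow, one_smul]; rfl
  · rintro j c hc
    refine ⟨⊤, inferInstance, fun g _ => ?_⟩
    rw [MonoidHom.one_apply, MonoidHom.one_apply, Units.val_one, one_pow, one_smul]; rfl

/-- The trivial place. -/
noncomputable def trivPlace {E : Rlz T.W V} (hE : Full E) (hc : CycR E)
    (hemb : Nonempty (V.K →+* ℂ)) (X : 𝒱.Obj) (Γ : Type w) [Group Γ] : Place.{u, w} T X where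
  V := V
  E := E
  full := hE
  cyc := hc
  emb := hemb
  Γ := Γ
  χ := 1
  ρ := fun _ => 1
  act := trivAct V X Γ

lemma triv_tate (V : WeilCohomology.{u, v} ops) {X : 𝒱.Obj} {Γ : Type w} [Group Γ] {n j : ℕ}
    {x : V.H (pw X n)} (hx : x ∈ V.gr (pw X n) (2 * j)) :
    x ∈ tateClasses (1 : Γ →* V.Kˣ) (V.gr (pw X n)) (1 : Γ →* (V.H (pw X n) ≃ₐ[V.K] V.H (pw X n)))
      j := by
  refine ⟨hx, ⊤, inferInstance, fun g _ => ?_⟩
  rw [MonoidHom.one_apply, MonoidHom.one_apply, Units.val_one, one_pow, one_smul]; rfl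

end Triv

section Law

variable {T : HodgeTheory ops} {X : 𝒱.Obj} {I : Type v} (p : I → Place.{u, w} T X) (i : I)

/-- **The law for systems of classes which contain the universal classes.** -/
theorem pred_or [Nontrivial (T.W.H X)] (Q : ClassPred (p i).V)
    (hQ : ∀ n, US p i n ≤ Q.sp (pw X n)) :
    (∀ n, US p i n = Q.sp (pw X n)) ∨
      Tendsto (fun n => (finrank T.W.K (UU p n) : ℝ) /
        finrank (p i).V.K (Q.sp (pw X n))) atTop (𝓝 0) := by
  have := nontrivial_place p i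
  have hST : ∀ Z, (uSys p i).C Z ≤ Q.sys.C Z :=
    fun Z => hull_le (T := Q.sys) (G := US p i) (fun Z => ClassPred.alg_le)
      (fun n a ha => hQ n ha) Z
  have htop : ∃ l ∈ (uSys p i).C X, (p i).V.tr X l = 1 := by
    obtain ⟨z, hz, hz1⟩ := exists_top_US p i
    exact ⟨z, (uSys_pw p i 0).symm ▸ hz, hz1⟩
  rcases growth_pow hST htop with ⟨m, P, ⟨θ⟩, hP⟩ | h1
  · left
    intro n
    exact le_antisymm (hQ n) (US_of_genBy i θ hP n)
  · right
    refine h1.congr fun n => ?_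
    rw [uSys_a]
    rfl

end Law

end Pool.Agent.X299
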