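import Pool.Agent.X299.Z.GDefs

/-!
# Periods and de Rham-Betti classes: definitions
-/

open CategoryTheory AlgebraicGeometry

universe u v w

namespace Pool.Agent.X299

section Alg

variable {K K' L : Type*} [Field K] [Field K'] [Field L] {A A' B : Type*} [Ring A] [Ring A']
  [Ring B] [Algebra K A] [Algebra K' A'] [Algebra L B]

variable (K) in
/-- The dimension of the space spanned by all `x` such that `Q j x` for some `j`. -/
noncomputable def dimAll (Q : ℕ → A → Prop) : ℕ := spanRank K {x | ∃ j, Q j x}

/-- Up to the twists by the `j`-th powers of `c` and `c'`, the element `w` is in the image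
of `d`. -/
def InImage (d : A' → B) (c c' : L) (j : ℕ) (w : B) : Prop := ∃ y, c ^ j • d y = c' ^ j • w

/-- The element `w` is a sum of elements `s l • b x` with `Q x`. -/
def IsSum (s : K' →+* L) (b : A → B) (Q : A → Prop) (w : B) : Prop :=
  w ∈ AddSubmonoid.closure {w | ∃ (l : K') (x : A), Q x ∧ s l • b x = w}

/-- The element `x` is of degree `i`. -/
def OfDeg (g : ℕ → Submodule K A) (i : ℕ) (x : A) : Prop := x ∈ g i

end Alg

open Pool.Agent.H914 Pool.Agent.H914.VarClass Pool.Agent.H914.VarClass.Obj
  Pool.Agent.H914.WeilCohomology Pool.Agent.Y129 Pool.Agent.Y121.AHS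

variable {k : Type u} [Field k] {𝒱 : VarClass k} {ops : CycleOps 𝒱}

/-- The algebraic de Rham cohomology `V` and the cohomology `U` with complex coefficients, with the
inclusions `b` of the cohomology with rational coefficients and `d` of the algebraic de Rham
cohomology in `U` (the period isomorphism; the constant `b.c` is `1` and `d.c` is `2 π i`). -/
structure Periods (T : HodgeTheory ops) where
  /-- the algebraic de Rham cohomology -/
  V : WeilCohomology.{u, 0} ops
  /-- the cohomology with complex coefficients -/
  U : WeilCohomology.{u, 0} ops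
  cplx : Nonempty (U.K ≃+* ℂ)
  /-- the inclusion of the rational cohomology -/
  b : Realisation T.W U
  /-- the inclusion of the algebraic de Rham cohomology -/
  d : Realisation V U

variable {T : HodgeTheory ops} (P : Periods T) (Z : 𝒱.Obj) (j : ℕ)

/-- The rational class `x` of degree `2 j` on `Z` is a de Rham-Betti class: `(2 π i) ^ j x` is in the
algebraic de Rham cohomology. -/
def IsDRB (x : T.W.H Z) : Prop :=
  OfDeg (T.W.gr Z) (2 * j) x ∧ InImage (P.d.e Z) P.b.c P.d.c j (P.b.e Z x)

/-- The class `w` of degree `2 j` is a de Rham-Betti class with coefficients in the field of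
coefficients `P.V.K` of the algebraic de Rham cohomology: it is a linear combination with
coefficients in this field of rational classes of degree `2 j`, and `(2 π i) ^ j w` is in the
algebraic de Rham cohomology. -/
def IsDRBOver (w : P.U.H Z) : Prop :=
  IsSum P.d.s (P.b.e Z) (OfDeg (T.W.gr Z) (2 * j)) w ∧ InImage (P.d.e Z) P.b.c P.d.c j w

variable {X : 𝒱.Obj} {I : Type v} (θ : I → GaloisTheory.{u, w} T X)

/-- The rational class `x` of degree `2 j` on the product of `n + 1` copies of `X` is a de
Rham-Betti class, a Hodge class, and its images are Tate classes for all theories `θ i`. -/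
def IsCommon (n : ℕ) (j : ℕ) (x : T.W.H (pw X n)) : Prop :=
  IsDRB P (pw X n) j x ∧ IsUniversal θ n j x

end Pool.Agent.X299
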