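import Pool.Agent.X299.DR.PMain
import Pool.Agent.X299.DR.IDefs
import Pool.Agent.X299.Z.MTPlace

/-!
# The index law for de Rham-Betti classes with coefficients
-/

open CategoryTheory AlgebraicGeometry TensorProduct Filter Topology

open scoped ENNReal

universe u v w

namespace Pool.Agent.X299

open Module
open Pool.Agent.H914 Pool.Agent.H914.VarClass Pool.Agent.H914.VarClass.Obj
  Pool.Agent.H914.WeilCohomology Pool.Agent.H281R3.HT Pool.Agent.TH125.Gal
open Pool.Agent.Y129 (pw pj PowerAction TG tateClasses CC cycRank nontrivial_pw one_algSpan)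
open Pool.Agent.Y133.Half (PH Sys ClassPred pwIso129)
open Pool.Agent.W536.RR
open Pool.Agent.Y121.AHS

variable {k : Type u} [Field k] {𝒱 : VarClass k} {ops : CycleOps 𝒱} {T : HodgeTheory ops}

lemma algSpan_eq (Z : 𝒱.Obj) : algSpan T.W Z =
    Submodule.span T.W.K {x | ∃ j, IsCycClass T Z j x} := by
  rw [algSpan]
  congr 1
  ext x
  rw [Set.mem_iUnion]
  rfl

lemma cycleRank_eq (Z : 𝒱.Obj) : cycleRank T Z = cycRank ops Z := by
  have h1 : (Pool.Agent.Y133.Half.algSys T.W).a Z = cycRank ops Z :=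
    Pool.Agent.Y133.Half.numDim_eq_cycRank T.W Z
  have _ : FiniteDimensional T.W.K (T.W.H Z) := T.W.finite Z
  rw [cycleRank, gramRank_eq, ← algSpan_eq, ← h1]
  rfl

lemma cycleSpan_eq (Z : 𝒱.Obj) : spanRank T.W.K {x | ∃ j, IsCycClass T Z j x} =
    finrank T.W.K (algSpan T.W Z) := by
  rw [spanRank, algSpan_eq]

variable (P : Periods T) {X : 𝒱.Obj} {I : Type v} (θ : I → GaloisTheory.{u, w} T X)
  [IsAlgClosed P.V.K] [Nontrivial (T.W.H X)]

omit [IsAlgClosed P.V.K] in
/-- If all de Rham-Betti classes with coefficients are combinations of common classes, the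
dimensions are equal. -/
lemma over_eq_common (h : ∀ n j w, IsDRBOver P (pw X n) j w →
    IsSum P.d.s (P.b.e (pw X n)) (IsCommon P θ n j) w) (n : ℕ) :
    dimAll P.U.K (IsDRBOver P (pw X n)) = dimAll T.W.K (IsCommon P θ n) := by
  have hnt : Nontrivial ((toH T).W.H X) := (inferInstance : Nontrivial (T.W.H X))
  have hspan : ∀ w, IsSum P.d.s (P.b.e (pw X n)) (fun x => ∃ j, IsCommon P θ n j x) w →
      w ∈ Submodule.span P.U.K (P.b.e (pw X n) '' {x | ∃ j, IsCommon P θ n j x}) := by
    intro w hw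
    refine AddSubmonoid.closure_induction (motive := fun w _ => w ∈
      Submodule.span P.U.K (P.b.e (pw X n) '' {x | ∃ j, IsCommon P θ n j x})) ?_ ?_ ?_ hw
    · rintro _ ⟨l, x, hx, rfl⟩
      exact Submodule.smul_mem _ _ (Submodule.subset_span ⟨x, hx, rfl⟩)
    · exact Submodule.zero_mem _
    · intro a b _ _ ha hb; exact Submodule.add_mem _ ha hb
  have h1 : Submodule.span P.U.K {w | ∃ j, IsDRBOver P (pw X n) j w} =
      Submodule.span P.U.K (P.b.e (pw X n) '' {x | ∃ j, IsCommon P θ n j x}) := by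
    apply le_antisymm
    · rw [Submodule.span_le]
      rintro w ⟨j, hw⟩
      refine hspan w (AddSubmonoid.closure_mono ?_ (h n j w hw))
      rintro _ ⟨l, x, hx, rfl⟩
      exact ⟨l, x, ⟨j, hx⟩, rfl⟩
    · rw [Submodule.span_le]
      rintro _ ⟨x, ⟨j, hx⟩, rfl⟩
      refine Submodule.subset_span ⟨j, AddSubmonoid.subset_closure ⟨1, x, hx.1.1, ?_⟩, hx.1.2⟩
      rw [map_one, one_smul]
  have h2 : Submodule.span P.U.K (P.b.e (pw X n) '' {x | ∃ j, IsCommon P θ n j x}) =
      Submodule.span P.U.K (P.b.rlz.E (pw X n) '' (Submodule.span T.W.K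
        {x | ∃ j, IsCommon P θ n j x} : Set (T.W.H (pw X n)))) := by
    apply le_antisymm
    · exact Submodule.span_mono (Set.image_mono Submodule.subset_span)
    · rw [Submodule.span_le]
      rintro _ ⟨x, hx, rfl⟩
      induction hx using Submodule.span_induction with
      | mem x hx => exact Submodule.subset_span ⟨x, hx, rfl⟩
      | zero => rw [map_zero]; exact Submodule.zero_mem _
      | add a b _ _ ha hb => rw [map_add]; exact Submodule.add_mem _ ha hb
      | smul r a _ ha => rw [P.b.rlz.semi]; exact Submodule.smul_mem _ _ ha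
  rw [dimAll, spanRank, h1, h2, finrank_image P.b.full]
  rfl

/-- **The index law for de Rham-Betti classes with coefficients.** -/
theorem over_index : ∃ N : ℕ∞, 1 ≤ N ∧
    Tendsto (overRatio P X) atTop (𝓝 (N : ℝ≥0∞)) ∧
    (∀ n, overRatio P X (2 * n + 1) ≤ (N : ℝ≥0∞)) ∧
    (N = 1 ↔ ∀ n, dimAll P.U.K (IsDRBOver P (pw X n)) = cycleRank T (pw X n)) ∧
    (N = 1 → ∀ n j w, IsDRBOver P (pw X n) j w →
      IsSum P.d.s (P.b.e (pw X n)) (IsCycClass T (pw X n) j) w) ∧
    (N ≠ ⊤ → ∀ n, cycleRank T (pw X n) = spanRank T.W.K {x | ∃ j, IsCycClass T (pw X n) j x} ∧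
      dimAll P.U.K (IsDRBOver P (pw X n)) = dimAll T.W.K (IsCommon P θ n) ∧
      ∀ j w, IsDRBOver P (pw X n) j w →
        IsSum P.d.s (P.b.e (pw X n)) (IsCommon P θ n j) w) := by
  have hnt : Nontrivial ((toH T).W.H X) := (inferInstance : Nontrivial (T.W.H X))
  let _ : Algebra (toH T).W.K P.V.K :=
    (ratRing (toH T) P.V.K (show P.V.K →+* ℂ from (stR P).s)).toAlgebra
  set Q := kdrPred (T := toH T) (stR P) (stR_cyc P) with hQ
  have hnt' : Nontrivial ((baseW (toH T).W P.V.K).H X) := Pool.Agent.Y129.nontrivial_base _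
  have hstab : Pool.Agent.Y129.StableSystem (baseW (toH T).W P.V.K) X
      (fun n => Q.sp (pw X n)) := fun m n f hf a ha =>
    CC_apply (T := Q.sys) (fun Z => ClassPred.alg_le) hf ha
  have halg : ∀ n, algSpan (baseW (toH T).W P.V.K) (pw X n) ≤ Q.sp (pw X n) :=
    fun n => ClassPred.alg_le
  obtain ⟨N, h1, h2, h3, h4, h5⟩ := Pool.Agent.Y133.Half.stable_index hstab halg
  have hratio : ∀ n, overRatio P X n =
      (finrank (baseW (toH T).W P.V.K).K (Q.sp (pw X n)) : ℝ≥0∞) /
        Pool.Agent.Y133.Half.cycRank ops (pw X n) := by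
    intro n
    rw [overRatio, drbOver_eq, cycleRank_eq]
    rfl
  have hT : Tendsto (overRatio P X) atTop (𝓝 (N : ℝ≥0∞)) :=
    h2.congr fun n => (hratio n).symm
  refine ⟨N, h1, hT, fun n => (hratio _).le.trans (h3 n), ?_, fun hN n j w hw => ?_, ?_⟩
  rotate_left
  · obtain ⟨x, hx, hxw⟩ := (isDRBOver_iff P).1 hw
    refine (isSum_iff P).2 ⟨x, ?_, hxw⟩
    have h6 : x ∈ algSpan (baseW (toH T).W P.V.K) (pw X n) := by
      rw [← ((h4.1 hN) n).1]
      exact ClassPred.sp_of hx
    have h7 : ∀ y ∈ algSpan (baseW (toH T).W P.V.K) (pw X n),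
        H914.proj ((baseW (toH T).W P.V.K).isInternal (pw X n)) (2 * j) y ∈
        Submodule.span (baseW (toH T).W P.V.K).K
          ((exR (toH T).W P.V.K).E (pw X n) '' {x | IsCycClass T (pw X n) j x}) := by
      intro y hy
      refine algSpan_induction (p := fun y =>
        H914.proj ((baseW (toH T).W P.V.K).isInternal (pw X n)) (2 * j) y ∈
        Submodule.span (baseW (toH T).W P.V.K).K
          ((exR (toH T).W P.V.K).E (pw X n) '' {x | IsCycClass T (pw X n) j x})) ?_ ?_ ?_ ?_ hy
      · rw [map_zero]; exact Submodule.zero_mem _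
      · intro a b ha hb; rw [map_add]; exact Submodule.add_mem _ ha hb
      · intro t a ha; rw [map_smul]; exact Submodule.smul_mem _ _ ha
      · intro i z hz
        by_cases hij : i = j
        · subst hij
          rw [proj_same _ ((baseW (toH T).W P.V.K).cl_mem hz)]
          exact Submodule.subset_span ⟨T.W.cl (pw X n) z, ⟨z, hz, rfl⟩, rfl⟩
        · rw [proj_ne _ ((baseW (toH T).W P.V.K).cl_mem hz) (by omega)]
          exact Submodule.zero_mem _
    have h8 := h7 x h6
    rwa [proj_same _ (Q.gr hx)] at h8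
  rotate_left
  · rw [h4]
    refine forall_congr' fun n => ?_
    have e1 := Pool.Agent.Y133.Half.homEqNum_iff' (W := baseW (toH T).W P.V.K) (pw X n)
    have e2 : cycleRank T (pw X n) = Pool.Agent.Y133.Half.cycRank ops (pw X n) :=
      cycleRank_eq (pw X n)
    have e3 : Pool.Agent.Y133.Half.cycRank ops (pw X n) ≤
        finrank (baseW (toH T).W P.V.K).K (algSpan (baseW (toH T).W P.V.K) (pw X n)) := by
      rw [← Pool.Agent.Y133.Half.numDim_eq_cycRank (baseW (toH T).W P.V.K) (pw X n)]
      have := (Pool.Agent.Y133.Half.algSys (baseW (toH T).W P.V.K)).a_add_num (pw X n)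
      have e4 : finrank (baseW (toH T).W P.V.K).K
        ((Pool.Agent.Y133.Half.algSys (baseW (toH T).W P.V.K)).C (pw X n)) =
        finrank (baseW (toH T).W P.V.K).K (algSpan (baseW (toH T).W P.V.K) (pw X n)) := rfl
      omega
    have e5 := Submodule.finrank_mono (halg n)
    have e6 : dimAll P.U.K (IsDRBOver P (pw X n)) =
      finrank (baseW (toH T).W P.V.K).K (Q.sp (pw X n)) := drbOver_eq P _
    rw [e1, e2, e6]
    constructor
    · rintro ⟨h6, h7⟩
      rw [h7, ← h6]
    · intro h6
      have h7 : finrank (baseW (toH T).W P.V.K).K (Q.sp (pw X n)) =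
        finrank (baseW (toH T).W P.V.K).K (algSpan (baseW (toH T).W P.V.K) (pw X n)) := by
        omega
      refine ⟨(Submodule.eq_of_le_of_finrank_eq (halg n) h7.symm).symm, ?_⟩
      omega
  · intro hN n
    constructor
    · have h6 := homEqNum_base (W := (toH T).W) (h5 hN n)
      rw [Pool.Agent.Y133.Half.homEqNum_iff'] at h6
      rw [cycleRank_eq, cycleSpan_eq]
      exact h6
    · rcases drbOver_law P θ with h6 | h6
      · exact ⟨over_eq_common P θ h6 n, h6 n⟩
      · exfalso
        have hepos : ∀ n, 0 < dimAll P.U.K (IsDRBOver P (pw X n)) := by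
          intro n
          have e6 : dimAll P.U.K (IsDRBOver P (pw X n)) =
            finrank (baseW (toH T).W P.V.K).K (Q.sp (pw X n)) := drbOver_eq P _
          rw [e6]
          have h7 := nontrivial_pw (W := baseW (toH T).W P.V.K) (X := X) n
          rw [Module.finrank_pos_iff]
          exact ⟨⟨⟨1, halg n (one_algSpan _)⟩, 0,
            fun h => one_ne_zero (congrArg Subtype.val h)⟩⟩
        have hrc : ∀ n, cycleRank T (pw X n) ≤ dimAll T.W.K (IsCommon P θ n) := by
          intro n
          rw [common_eq, cycleRank_eq]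
          exact cycRank_le_UU (pfam P θ) n
        obtain ⟨M, rfl⟩ := ENat.ne_top_iff_exists.1 hN
        have hlt : ((M : ℕ∞) : ℝ≥0∞) < ((M + 1 : ℕ) : ℝ≥0∞) := by
          rw [ENat.toENNReal_coe]
          exact_mod_cast Nat.lt_succ_self M
        have h7 := hT.eventually_lt_const hlt
        have h8 : ∀ᶠ n in atTop, (dimAll T.W.K (IsCommon P θ n) : ℝ) /
            dimAll P.U.K (IsDRBOver P (pw X n)) < 1 / ((M : ℝ) + 1) :=
          h6.eventually_lt_const (by positivity)
        obtain ⟨n, h9, h10⟩ := (h7.and h8).exists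
        have he := hepos n
        have hr : cycleRank T (pw X n) ≠ 0 := by
          intro h0
          rw [overRatio, h0, Nat.cast_zero, ENNReal.div_zero (by exact_mod_cast he.ne')] at h9
          exact absurd h9 (not_lt_of_ge le_top)
        have h11 : dimAll P.U.K (IsDRBOver P (pw X n)) ≤ (M + 1) * cycleRank T (pw X n) := by
          have h12 := h9.le
          rw [overRatio, ENNReal.div_le_iff (by exact_mod_cast hr)
            (ENNReal.natCast_ne_top _)] at h12
          exact_mod_cast h12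
        have h13 : dimAll P.U.K (IsDRBOver P (pw X n)) ≤
            (M + 1) * dimAll T.W.K (IsCommon P θ n) :=
          h11.trans (Nat.mul_le_mul_left _ (hrc n))
        have h14 : (dimAll P.U.K (IsDRBOver P (pw X n)) : ℝ) ≤
            ((M : ℝ) + 1) * dimAll T.W.K (IsCommon P θ n) := by exact_mod_cast h13
        have he' : (0 : ℝ) < dimAll P.U.K (IsDRBOver P (pw X n)) := by exact_mod_cast he
        rw [div_lt_div_iff₀ he' (by positivity)] at h10
        nlinarith

/-- The family without members. -/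
def noTheory (T : HodgeTheory ops) (X : 𝒱.Obj) : PEmpty.{1} → GaloisTheory.{u, 0} T X :=
  fun i => i.elim

omit [IsAlgClosed P.V.K] [Nontrivial (T.W.H X)] in
lemma common_none (n j : ℕ) (x : T.W.H (pw X n)) :
    IsCommon P (noTheory T X) n j x ↔ IsHDR P (pw X n) j x :=
  and_congr_right fun _ => ⟨fun h => h.1, fun h => ⟨h, fun i => i.elim⟩⟩

/-- **The index law for de Rham-Betti classes with coefficients.** -/
theorem over_index_hodge : ∃ N : ℕ∞, 1 ≤ N ∧
    Tendsto (overRatio P X) atTop (𝓝 (N : ℝ≥0∞)) ∧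
    (∀ n, overRatio P X (2 * n + 1) ≤ (N : ℝ≥0∞)) ∧
    (N = 1 ↔ ∀ n, dimAll P.U.K (IsDRBOver P (pw X n)) = cycleRank T (pw X n)) ∧
    (N = 1 → ∀ n j w, IsDRBOver P (pw X n) j w →
      IsSum P.d.s (P.b.e (pw X n)) (IsCycClass T (pw X n) j) w) ∧
    (N ≠ ⊤ → ∀ n, cycleRank T (pw X n) = spanRank T.W.K {x | ∃ j, IsCycClass T (pw X n) j x} ∧
      dimAll P.U.K (IsDRBOver P (pw X n)) = dimAll T.W.K (IsHDR P (pw X n)) ∧
      ∀ j w, IsDRBOver P (pw X n) j w →
        IsSum P.d.s (P.b.e (pw X n)) (IsHDR P (pw X n) j) w) := by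
  obtain ⟨N, h1, h2, h3, h4, h4', h5⟩ := over_index P (noTheory T X)
  have h6 : ∀ n, IsCommon P (noTheory T X) n = IsHDR P (pw X n) := fun n =>
    funext fun j => funext fun x => propext (common_none P n j x)
  simp only [h6] at h5
  exact ⟨N, h1, h2, h3, h4, h4', h5⟩

end Pool.Agent.X299
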