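import Pool.Agent.X299.DR.Core
import Pool.Agent.X299.DR.PDefs

/-!
# The laws for de Rham-Betti classes
-/

open CategoryTheory AlgebraicGeometry TensorProduct Filter Topology

universe u v w

namespace Pool.Agent.X299

open Module
open Pool.Agent.H914 Pool.Agent.H914.VarClass Pool.Agent.H914.VarClass.Obj
  Pool.Agent.H914.WeilCohomology Pool.Agent.H281R3.HT Pool.Agent.TH125.Gal
open Pool.Agent.Y129 (pw pj PowerAction TG tateClasses CC cycRank nontrivial_pw one_algSpan)
open Pool.Agent.Y133.Half (PH Sys ClassPred pwIso129)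
open Pool.Agent.W536.RR

variable {k : Type u} [Field k] {𝒱 : VarClass k} {ops : CycleOps 𝒱}

section Mix

open Pool.Agent.Y121.AH

variable {T : HodgeTheory ops} {V : WeilCohomology.{u, 0} ops}

lemma Full.injective {V V' : WeilCohomology.{u, 0} ops} {M : Rlz V V'} (hM : Full M)
    (Z : 𝒱.Obj) : Function.Injective (M.E Z) := by
  rw [injective_iff_map_eq_zero]
  intro x hx
  apply V.nondeg
  intro y
  have h1 := hM.tr Z (x * y)
  rw [map_mul, hx, zero_mul, map_zero] at h1
  rcases mul_eq_zero.1 h1.symm with h2 | h2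
  · exact absurd h2 (pow_ne_zero _ M.ne)
  · exact (map_eq_zero M.s).1 h2

/-- The mixed realisations. -/
lemma exists_mix' (E : Rlz T.W V) (hE : Full E) (hc : CycR E) (τ : V.K →+* ℂ) :
    ∃ M : Rlz V (CW T), Full M ∧ CycR M ∧ M.c = (show (CW T).K from (τ E.c)⁻¹) ∧
      (∀ r : V.K, M.s r = (show (CW T).K from τ r)) ∧
      ∀ Z a, M.E Z (E.E Z a) = em T.W ℂ a := by
  let _ : Algebra T.W.K V.K := E.s.toAlgebra
  have hs : ∀ r, E.s r = algebraMap T.W.K V.K r := fun _ => rfl
  have hM : ∀ Z a, (Rlz.comp' (psiR T τ) (thR hs hE)).E Z (E.E Z a) = em T.W ℂ a := by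
    intro Z a
    rw [comp'_apply, thR_E]
    exact psi_em _ a
  have hMs : ∀ r : V.K, (Rlz.comp' (psiR T τ) (thR hs hE)).s r = (show (CW T).K from τ r) :=
    fun r => rfl
  have hMc : (Rlz.comp' (psiR T τ) (thR hs hE)).c = (show (CW T).K from (τ E.c)⁻¹) := by
    change 1 * (psiR T τ).s (show (baseW T.W V.K).K from (E.c)⁻¹) = _
    rw [one_mul]
    exact map_inv₀ τ E.c
  refine ⟨Rlz.comp' (psiR T τ) (thR hs hE), ⟨fun Z => ?_, fun Z y => ?_⟩, ?_, hMc, hMs, hM⟩
  · rw [eq_top_iff]
    rintro x -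
    refine tmul_ind (p := fun x => x ∈ Submodule.span (CW T).K
      (Set.range ((Rlz.comp' (psiR T τ) (thR hs hE)).E Z))) ?_ ?_ ?_ x
    · exact Submodule.zero_mem _
    · intro x y hx hy; exact Submodule.add_mem _ hx hy
    · intro l a
      rw [tmul_eq]
      exact Submodule.smul_mem _ _ (Submodule.subset_span ⟨_, hM Z a⟩)
  · obtain ⟨x, rfl⟩ := th_surjective hs hE Z y
    rw [comp'_apply, thR_apply, psiR_tr, th_tr hs hE]
    change (psiR T τ).s ((baseW T.W V.K).tr Z x) =
      (1 * (psiR T τ).s (show (baseW T.W V.K).K from E.c⁻¹)) ^ Z.dim *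
        (psiR T τ).s (show (baseW T.W V.K).K from
          (E.c ^ Z.dim * (show V.K from (baseW T.W V.K).tr Z x)))
    rw [one_mul, ← map_pow, ← map_mul]
    congr 1
    change (show V.K from (baseW T.W V.K).tr Z x) = (E.c⁻¹ : V.K) ^ Z.dim *
      (E.c ^ Z.dim * (show V.K from (baseW T.W V.K).tr Z x))
    rw [← mul_assoc, inv_pow, inv_mul_cancel₀ (pow_ne_zero _ E.ne), one_mul]
  · intro Z j z hz
    have h1 : V.cl Z z = (E.c ^ j)⁻¹ • E.E Z (T.W.cl Z z) := by
      rw [hc hz, smul_smul, inv_mul_cancel₀ (pow_ne_zero _ E.ne), one_smul]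
    rw [h1, (Rlz.comp' (psiR T τ) (thR hs hE)).semi, hM, hMc, hMs]
    congr 1
    change τ ((E.c ^ j)⁻¹) = ((τ E.c)⁻¹) ^ j
    rw [map_inv₀, map_pow, inv_pow]

end Mix

open Pool.Agent.Y121.AHS

variable {T : HodgeTheory ops} (P : Periods T)

/-- The comparison with the standard complex theory, and the period isomorphism. -/
lemma exists_std : ∃ M : Pool.Agent.Y121.AH.Rlz P.U (Pool.Agent.Y121.AH.CW (toH T)),
    Full M ∧ CycR M ∧ (∀ Z a, M.E Z (P.b.e Z a) = Pool.Agent.Y121.AH.em (toH T).W ℂ a) ∧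
    M.c = (M.s P.b.c)⁻¹ := by
  obtain ⟨ι⟩ := P.cplx
  obtain ⟨M, h1, h2, h3, h4, h5⟩ := exists_mix' (T := toH T) P.b.rlz P.b.full P.b.cycR
    (ι : P.U.K →+* ℂ)
  refine ⟨M, h1, h2, h5, ?_⟩
  rw [h3, h4]
  rfl

/-- The comparison with the standard complex theory. -/
noncomputable def stM : Pool.Agent.Y121.AH.Rlz P.U (Pool.Agent.Y121.AH.CW (toH T)) :=
  Classical.choose (exists_std P)

lemma stM_full : Full (stM P) := (Classical.choose_spec (exists_std P)).1

lemma stM_cyc : CycR (stM P) := (Classical.choose_spec (exists_std P)).2.1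

lemma stM_b (Z : 𝒱.Obj) (a : T.W.H Z) : (stM P).E Z (P.b.e Z a) =
    Pool.Agent.Y121.AH.em (toH T).W ℂ a := (Classical.choose_spec (exists_std P)).2.2.1 Z a

lemma stM_c : (stM P).c = ((stM P).s P.b.c)⁻¹ :=
  (Classical.choose_spec (exists_std P)).2.2.2

/-- The period isomorphism. -/
noncomputable def stR : Pool.Agent.Y121.AH.Rlz P.V (Pool.Agent.Y121.AH.CW (toH T)) :=
  Rlz.comp' (stM P) P.d.rlz

lemma stR_full : Full (stR P) := Full.comp' (stM_full P) P.d.full

lemma stR_cyc : CycR (stR P) := CycR.comp' (stM_cyc P) P.d.cycR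

lemma inImage_iff {Z : 𝒱.Obj} {j : ℕ} {w : P.U.H Z} :
    InImage (P.d.e Z) P.b.c P.d.c j w ↔ ∃ y, (stR P).E Z y = (stR P).c ^ j • (stM P).E Z w := by
  have hb : (stM P).s P.b.c ≠ 0 := fun h => P.b.ne ((map_eq_zero _).1 h)
  have hc : (stR P).c = ((stM P).s P.b.c)⁻¹ * (stM P).s P.d.c := by
    rw [← stM_c]
    rfl
  have hE : ∀ y, (stR P).E Z y = (stM P).E Z (P.d.e Z y) := fun y => rfl
  have hbj : ((stM P).s P.b.c) ^ j ≠ 0 := pow_ne_zero _ hb
  have key : ∀ y, P.b.c ^ j • P.d.e Z y = P.d.c ^ j • w ↔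
      (stR P).E Z y = (stR P).c ^ j • (stM P).E Z w := by
    intro y
    rw [← (stM_full P).injective Z |>.eq_iff, (stM P).semi, (stM P).semi, map_pow, map_pow, hE,
      hc, mul_pow, inv_pow]
    constructor
    · intro h
      rw [mul_smul, ← h, smul_smul, inv_mul_cancel₀ hbj, one_smul]
    · intro h
      rw [h, smul_smul, ← mul_assoc, mul_inv_cancel₀ hbj, one_mul]
  exact exists_congr key

lemma isDRB_iff {Z : 𝒱.Obj} {j : ℕ} {x : T.W.H Z} : IsDRB P Z j x ↔
    (rdrPred (T := toH T) (stR_cyc P)).P Z j x := by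
  refine Iff.trans ?_
    (rdr_iff (T := toH T) (R := stR P) (hR := stR_cyc P) (Z := Z) (j := j) (x := x)).symm
  rw [IsDRB, inImage_iff, stM_b]
  exact Iff.rfl

variable {X : 𝒱.Obj} {I : Type v} (θ : I → GaloisTheory.{u, w} T X)

lemma isCommon_iff {n j : ℕ} {x : T.W.H (pw X n)} : IsCommon P θ n j x ↔
      IsCom (stR P) (fun i => (θ i).place) n j x := by
  rw [IsCommon, universal_iff, IsDRB, inImage_iff, stM_b]
  constructor
  · rintro ⟨⟨h1, h2⟩, h3, h4⟩
    exact ⟨h3, h2, h4⟩
  · rintro ⟨h3, h2, h4⟩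
    exact ⟨⟨h3.1, h2⟩, h3, h4⟩

variable [IsAlgClosed P.V.K]

/-- The family of places. -/
noncomputable abbrev pfam [Algebra (toH T).W.K P.V.K] :
    Option (Option (Option I)) → Place.{u, w} (toH T) X :=
  pls (stR_full P) (stR_cyc P) (fun i => (θ i).place)

lemma common_eq [Algebra (toH T).W.K P.V.K] (n : ℕ) :
    dimAll T.W.K (IsCommon P θ n) = finrank (toH T).W.K (UU (pfam P θ) n) := by
  have h1 : {x : T.W.H (pw X n) | ∃ j, IsCommon P θ n j x} =
      {x | ∃ j, (uloc (pfam P θ) n).P j x} :=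
    Set.ext fun x => exists_congr fun j => (isCommon_iff P θ).trans (uloc_pls _ _ _).symm
  rw [UU_eq_span]
  exact congrArg (fun S : Set (T.W.H (pw X n)) => finrank T.W.K (Submodule.span T.W.K S)) h1

omit [IsAlgClosed P.V.K] in
lemma drb_eq (Z : 𝒱.Obj) : dimAll T.W.K (IsDRB P Z) =
    finrank (toH T).W.K ((rdrPred (T := toH T) (stR_cyc P)).sp Z) := by
  have h1 : {x : T.W.H Z | ∃ j, IsDRB P Z j x} =
      {x | ∃ j, (rdrPred (T := toH T) (stR_cyc P)).P Z j x} :=
    Set.ext fun x => exists_congr fun j => isDRB_iff P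
  exact congrArg (fun S : Set (T.W.H Z) => finrank T.W.K (Submodule.span T.W.K S)) h1

omit [IsAlgClosed P.V.K] in
/-- The combinations with coefficients. -/
lemma isSum_iff [Algebra (toH T).W.K P.V.K] {Z : 𝒱.Obj} {S : T.W.H Z → Prop}
    {w : P.U.H Z} :
    IsSum P.d.s (P.b.e Z) S w ↔ ∃ x ∈ Submodule.span (baseW (toH T).W P.V.K).K
      ((exR (toH T).W P.V.K).E Z '' {x | S x}),
      (psiR (toH T) (show P.V.K →+* ℂ from (stR P).s)).E Z x = (stM P).E Z w := by
  set Q := psiR (toH T) (show P.V.K →+* ℂ from (stR P).s) with hQ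
  have hgen : ∀ (l : P.V.K) (x : T.W.H Z),
      Q.E Z ((show (baseW (toH T).W P.V.K).K from l) • (exR (toH T).W P.V.K).E Z x) =
      (stM P).E Z (P.d.s l • P.b.e Z x) := by
    intro l x
    have h1 : Q.E Z ((exR (toH T).W P.V.K).E Z x) = Pool.Agent.Y121.AH.em (toH T).W ℂ x :=
      psiR_em (toH T) _ x
    rw [Q.semi, h1, (stM P).semi, stM_b]
    rfl
  constructor
  · intro hw
    refine AddSubmonoid.closure_induction (motive := fun w _ => ∃ x ∈ Submodule.span
      (baseW (toH T).W P.V.K).K ((exR (toH T).W P.V.K).E Z '' {x | S x}),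
        Q.E Z x = (stM P).E Z w) ?_ ?_ ?_ hw
    · rintro _ ⟨l, x, hx, rfl⟩
      exact ⟨_, Submodule.smul_mem _ _ (Submodule.subset_span ⟨x, hx, rfl⟩), hgen l x⟩
    · exact ⟨0, Submodule.zero_mem _, by rw [map_zero, map_zero]⟩
    · rintro w w' _ _ ⟨x, hx, h⟩ ⟨x', hx', h'⟩
      exact ⟨x + x', Submodule.add_mem _ hx hx', by rw [map_add, map_add, h, h']⟩
  · rintro ⟨x, hx, h⟩
    have key : ∀ x ∈ Submodule.span (baseW (toH T).W P.V.K).K
        ((exR (toH T).W P.V.K).E Z '' {x | S x}), ∀ l : (baseW (toH T).W P.V.K).K,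
        ∃ w, IsSum P.d.s (P.b.e Z) S w ∧ Q.E Z (l • x) = (stM P).E Z w := by
      intro x hx
      induction hx using Submodule.span_induction with
      | mem x hx =>
        obtain ⟨x, hx, rfl⟩ := hx
        intro l
        exact ⟨_, AddSubmonoid.subset_closure ⟨l, x, hx, rfl⟩, hgen l x⟩
      | zero =>
        intro l
        exact ⟨0, AddSubmonoid.zero_mem _, by rw [smul_zero, map_zero, map_zero]⟩
      | add x y _ _ hx hy =>
        intro l
        obtain ⟨w, h1, h2⟩ := hx l
        obtain ⟨w', h1', h2'⟩ := hy l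
        exact ⟨w + w', AddSubmonoid.add_mem _ h1 h1', by
          rw [smul_add, map_add, map_add, h2, h2']⟩
      | smul r x _ hx => intro l; rw [smul_smul]; exact hx _
    obtain ⟨w', h1, h2⟩ := key x hx 1
    rw [one_smul, h] at h2
    rwa [(stM_full P).injective Z h2]

omit [IsAlgClosed P.V.K] in
/-- The de Rham-Betti classes with coefficients. -/
lemma isDRBOver_iff [Algebra (toH T).W.K P.V.K] {Z : 𝒱.Obj} {j : ℕ} {w : P.U.H Z} :
    IsDRBOver P Z j w ↔ ∃ x, (kdrPred (T := toH T) (stR P) (stR_cyc P)).P Z j x ∧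
      (psiR (toH T) (show P.V.K →+* ℂ from (stR P).s)).E Z x = (stM P).E Z w := by
  have hspan : ∀ x : (baseW (toH T).W P.V.K).H Z, x ∈ (baseW (toH T).W P.V.K).gr Z (2 * j) ↔
      x ∈ Submodule.span (baseW (toH T).W P.V.K).K
        ((exR (toH T).W P.V.K).E Z '' {x | x ∈ T.W.gr Z (2 * j)}) := by
    intro x
    constructor
    · intro hx
      have hx' : x ∈ ((toH T).W.gr Z (2 * j)).baseChange P.V.K := hx
      refine base_induction (P := fun x => x ∈ Submodule.span (baseW (toH T).W P.V.K).K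
        ((exR (toH T).W P.V.K).E Z '' {x | x ∈ T.W.gr Z (2 * j)})) ?_ ?_ ?_ hx'
      · exact Submodule.zero_mem _
      · intro x y hx hy; exact Submodule.add_mem _ hx hy
      · intro l a ha
        have e : (l ⊗ₜ[(toH T).W.K] a : P.V.K ⊗[(toH T).W.K] (toH T).W.H Z) =
          (show (baseW (toH T).W P.V.K).K from l) • (exR (toH T).W P.V.K).E Z a :=
            Pool.Agent.Y121.AH.tmul_eq l a
        rw [e]
        exact Submodule.smul_mem (Submodule.span (baseW (toH T).W P.V.K).K
          ((exR (toH T).W P.V.K).E Z '' {x | x ∈ T.W.gr Z (2 * j)})) _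
          (Submodule.subset_span ⟨a, ha, rfl⟩)
    · intro hx
      refine Submodule.span_le.2 ?_ hx
      rintro _ ⟨a, ha, rfl⟩
      exact (exR (toH T).W P.V.K).gr ha
  rw [IsDRBOver, isSum_iff, inImage_iff]
  constructor
  · rintro ⟨⟨x, hx, h1⟩, h⟩
    rw [← h1] at h
    exact ⟨x, (kdr_iff (stR_cyc P)).2 ⟨(hspan x).2 hx, h⟩, h1⟩
  · rintro ⟨x, hx, h1⟩
    have h := (kdr_iff (stR_cyc P)).1 hx
    rw [h1] at h
    exact ⟨⟨x, (hspan x).1 h.1, h1⟩, h.2⟩

omit [IsAlgClosed P.V.K] in
lemma drbOver_eq [Algebra (toH T).W.K P.V.K] (Z : 𝒱.Obj) : dimAll P.U.K (IsDRBOver P Z) =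
    finrank (baseW (toH T).W P.V.K).K
      ((kdrPred (T := toH T) (stR P) (stR_cyc P)).sp Z) := by
  have hF := psiR_full (toH T) (show P.V.K →+* ℂ from (stR P).s)
  rw [← finrank_image hF]
  have hspan : ∀ S : Set (P.U.H Z), Submodule.span (Pool.Agent.Y121.AH.CW (toH T)).K
      ((stM P).E Z '' (Submodule.span P.U.K S : Set (P.U.H Z))) =
      Submodule.span (Pool.Agent.Y121.AH.CW (toH T)).K ((stM P).E Z '' S) := by
    intro S
    apply le_antisymm
    · rw [Submodule.span_le]
      rintro _ ⟨x, hx, rfl⟩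
      induction hx using Submodule.span_induction with
      | mem x hx => exact Submodule.subset_span ⟨x, hx, rfl⟩
      | zero => rw [map_zero]; exact Submodule.zero_mem _
      | add a b _ _ ha hb => rw [map_add]; exact Submodule.add_mem _ ha hb
      | smul r a _ ha => rw [(stM P).semi]; exact Submodule.smul_mem _ _ ha
    · exact Submodule.span_mono (Set.image_mono Submodule.subset_span)
  have h0 : dimAll P.U.K (IsDRBOver P Z) = finrank (Pool.Agent.Y121.AH.CW (toH T)).K
      (Submodule.span (Pool.Agent.Y121.AH.CW (toH T)).K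
        ((stM P).E Z '' {w | ∃ j, IsDRBOver P Z j w})) := by
    rw [dimAll, spanRank, ← hspan, finrank_image (stM_full P)]
  have h1 : (stM P).E Z '' {w | ∃ j, IsDRBOver P Z j w} =
      (psiR (toH T) (show P.V.K →+* ℂ from (stR P).s)).E Z ''
        {x | ∃ j, (kdrPred (T := toH T) (stR P) (stR_cyc P)).P Z j x} := by
    ext w
    constructor
    · rintro ⟨w, ⟨j, hw⟩, rfl⟩
      obtain ⟨x, hx, h2⟩ := (isDRBOver_iff P).1 hw
      exact ⟨x, ⟨j, hx⟩, h2⟩
    · rintro ⟨x, ⟨j, hx⟩, rfl⟩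
      -- the class has a preimage
      have hx1 := ((kdr_iff (stR_cyc P)).1 hx).1
      have hsurj : ∃ w, (stM P).E Z w =
          (psiR (toH T) (show P.V.K →+* ℂ from (stR P).s)).E Z x := by
        have hx' : x ∈ ((toH T).W.gr Z (2 * j)).baseChange P.V.K := hx1
        refine base_induction (P := fun x => ∃ w, (stM P).E Z w =
          (psiR (toH T) (show P.V.K →+* ℂ from (stR P).s)).E Z
            (show (baseW (toH T).W P.V.K).H Z from x)) ?_ ?_ ?_ hx'
        · exact ⟨0, (map_zero ((stM P).E Z)).trans (map_zero ((psiR (toH T)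
            (show P.V.K →+* ℂ from (stR P).s)).E Z)).symm⟩
        · rintro x y ⟨w, hw⟩ ⟨w', hw'⟩
          exact ⟨w + w', (map_add ((stM P).E Z) w w').trans ((congrArg₂ (· + ·) hw hw').trans
            (map_add ((psiR (toH T) (show P.V.K →+* ℂ from (stR P).s)).E Z) x y).symm)⟩
        · intro l a _
          refine ⟨P.d.s l • P.b.e Z a, ?_⟩
          have e : (show (baseW (toH T).W P.V.K).H Z from (l ⊗ₜ[(toH T).W.K] a)) =
            (show (baseW (toH T).W P.V.K).K from l) • (exR (toH T).W P.V.K).E Z a :=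
              Pool.Agent.Y121.AH.tmul_eq l a
          have h3 : (psiR (toH T) (show P.V.K →+* ℂ from (stR P).s)).E Z
              ((exR (toH T).W P.V.K).E Z a) = Pool.Agent.Y121.AH.em (toH T).W ℂ a :=
            psiR_em (toH T) _ a
          rw [e, (psiR (toH T) (show P.V.K →+* ℂ from (stR P).s)).semi, h3]
          refine ((stM P).semi Z _ _).trans ?_
          exact congrArg (fun x => (stM P).s (P.d.s l) • x) (stM_b P Z a)
      obtain ⟨w, hw⟩ := hsurj
      exact ⟨w, ⟨j, (isDRBOver_iff P).2 ⟨x, hx, hw.symm⟩⟩, hw⟩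
  have h2 : Submodule.span (Pool.Agent.Y121.AH.CW (toH T)).K
      ((psiR (toH T) (show P.V.K →+* ℂ from (stR P).s)).E Z ''
        {x | ∃ j, (kdrPred (T := toH T) (stR P) (stR_cyc P)).P Z j x}) =
      Submodule.span (Pool.Agent.Y121.AH.CW (toH T)).K
        ((psiR (toH T) (show P.V.K →+* ℂ from (stR P).s)).E Z ''
          ((kdrPred (T := toH T) (stR P) (stR_cyc P)).sp Z :
            Set ((baseW (toH T).W P.V.K).H Z))) := by
    apply le_antisymm
    · exact Submodule.span_mono (Set.image_mono Submodule.subset_span)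
    · rw [Submodule.span_le]
      rintro _ ⟨x, hx, rfl⟩
      refine ClassPred.sp_ind (Q := kdrPred (T := toH T) (stR P) (stR_cyc P))
        (q := fun x => (psiR (toH T) (show P.V.K →+* ℂ from (stR P).s)).E Z x ∈
          Submodule.span (Pool.Agent.Y121.AH.CW (toH T)).K
          ((psiR (toH T) (show P.V.K →+* ℂ from (stR P).s)).E Z ''
            {x | ∃ j, (kdrPred (T := toH T) (stR P) (stR_cyc P)).P Z j x})) ?_ ?_ ?_ hx
      · intro j x hx; exact Submodule.subset_span ⟨x, ⟨j, hx⟩, rfl⟩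
      · rw [map_zero]; exact Submodule.zero_mem _
      · intro a b ha hb; rw [map_add]; exact Submodule.add_mem _ ha hb
  rw [h0, h1, h2]

section Laws

variable [Nontrivial (T.W.H X)]

/-- **The law for rational de Rham-Betti classes.** -/
theorem drb_law : (∀ n j x, IsDRB P (pw X n) j x → IsCommon P θ n j x) ∨
    Tendsto (fun n => (dimAll T.W.K (IsCommon P θ n) : ℝ) /
      dimAll T.W.K (IsDRB P (pw X n))) atTop (𝓝 0) := by
  have hnt : Nontrivial ((toH T).W.H X) := (inferInstance : Nontrivial (T.W.H X))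
  let _ : Algebra (toH T).W.K P.V.K :=
    (ratRing (toH T) P.V.K (show P.V.K →+* ℂ from (stR P).s)).toAlgebra
  rcases rdr_law (stR_full P) (stR_cyc P) (fun i => (θ i).place) with h | h
  · exact Or.inl fun n j x hx => (isCommon_iff P θ).2 (h n j x ((isDRB_iff P).1 hx))
  · refine Or.inr (h.congr fun n => ?_)
    rw [common_eq, drb_eq]

/-- **The law for de Rham-Betti classes with coefficients.** -/
theorem drbOver_law : (∀ n j w, IsDRBOver P (pw X n) j w →
      IsSum P.d.s (P.b.e (pw X n)) (IsCommon P θ n j) w) ∨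
    Tendsto (fun n => (dimAll T.W.K (IsCommon P θ n) : ℝ) /
      dimAll P.U.K (IsDRBOver P (pw X n))) atTop (𝓝 0) := by
  have hnt : Nontrivial ((toH T).W.H X) := (inferInstance : Nontrivial (T.W.H X))
  let _ : Algebra (toH T).W.K P.V.K :=
    (ratRing (toH T) P.V.K (show P.V.K →+* ℂ from (stR P).s)).toAlgebra
  rcases kdr_law (stR_full P) (stR_cyc P) (fun i => (θ i).place) with h | h
  · left
    intro n j w hw
    obtain ⟨x, hx, hxw⟩ := (isDRBOver_iff P).1 hw
    have h1 := h n j x hx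
    have h2 : {x : T.W.H (pw X n) | IsCommon P θ n j x} =
      {x | IsCom (stR P) (fun i => (θ i).place) n j x} := Set.ext fun x => isCommon_iff P θ
    exact (isSum_iff P).2 ⟨x, (congrArg (fun S : Set (T.W.H (pw X n)) =>
      x ∈ Submodule.span (baseW (toH T).W P.V.K).K ((exR (toH T).W P.V.K).E _ '' S)) h2).mpr h1,
      hxw⟩
  · refine Or.inr (h.congr fun n => ?_)
    rw [common_eq, drbOver_eq]

/-- **The law for Hodge classes.** -/
theorem hodge_drb_law : (∀ n j x, IsHodge T (pw X n) j x → IsCommon P θ n j x) ∨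
    Tendsto (fun n => (dimAll T.W.K (IsCommon P θ n) : ℝ) /
      dimAll T.W.K (IsHodge T (pw X n))) atTop (𝓝 0) := by
  have hnt : Nontrivial ((toH T).W.H X) := (inferInstance : Nontrivial (T.W.H X))
  let _ : Algebra (toH T).W.K P.V.K :=
    (ratRing (toH T) P.V.K (show P.V.K →+* ℂ from (stR P).s)).toAlgebra
  have hd : ∀ n, dimAll T.W.K (IsHodge T (pw X n)) =
      finrank (toH T).W.K ((Pool.Agent.Y121.AH.hodgeSys (toH T)).C (pw X n)) := fun n => rfl
  rcases hodge_univ_or (pfam P θ) with h | h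
  · left
    intro n j x hx
    have h1 : x ∈ UU (pfam P θ) n := by
      rw [h]
      exact ClassPred.sp_of (Q := Pool.Agent.Y121.AH.hodgePred (toH T)) (j := j) hx
    have h2 := UU_proj h1 j
    have h3 : H914.proj ((toH T).W.isInternal (pw X n)) (2 * j) x = x := proj_same _ hx.1
    rw [h3] at h2
    exact (isCommon_iff P θ).2 ((uloc_pls _ _ _).1 h2)
  · refine Or.inr (h.congr fun n => ?_)
    rw [common_eq, hd]

/-- **The law for Tate classes.** -/
theorem tate_drb_law (i : I) : (∀ n j y, (θ i).IsTate n j y →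
      IsComb (θ i).V.K ((θ i).real.e (pw X n)) {x | IsCommon P θ n j x} y) ∨
    Tendsto (fun n => (dimAll T.W.K (IsCommon P θ n) : ℝ) / (θ i).act.tateDim n)
      atTop (𝓝 0) := by
  have hnt : Nontrivial ((toH T).W.H X) := (inferInstance : Nontrivial (T.W.H X))
  let _ : Algebra (toH T).W.K P.V.K :=
    (ratRing (toH T) P.V.K (show P.V.K →+* ℂ from (stR P).s)).toAlgebra
  rcases univ_or (p := pfam P θ) (some (some (some i))) with h | h
  · left
    intro n j y hy
    have h1 := (mem_tate (θ i) n j y).1 hy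
    have h2 : y ∈ US (pfam P θ) (some (some (some i))) n := by
      rw [h]
      exact le_iSup (fun j => tateClasses (θ i).place.χ ((θ i).place.V.gr (pw X n))
        ((θ i).place.ρ n) j) j h1
    have h3 := US_homog h2 h1.1
    have h4 : {x : T.W.H (pw X n) | IsCommon P θ n j x} =
      {x | (uloc (pfam P θ) n).P j x} :=
        Set.ext fun x => (isCommon_iff P θ).trans (uloc_pls _ _ _).symm
    rw [IsComb, h4]
    exact h3
  · refine Or.inr (h.congr fun n => ?_)
    rw [common_eq]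
    exact congrArg (fun m : ℕ => (finrank (toH T).W.K (UU (pfam P θ) n) : ℝ) / (m : ℝ))
      (finrank_place (θ i) n)

omit [Nontrivial (T.W.H X)] in
/-- The classes of algebraic cycles. -/
theorem common_cl (n j : ℕ) (z : (pw X n).Cycles) (hz : (pw X n).IsCyc j z) :
    IsCommon P θ n j (T.W.cl (pw X n) z) := by
  let _ : Algebra (toH T).W.K P.V.K :=
    (ratRing (toH T) P.V.K (show P.V.K →+* ℂ from (stR P).s)).toAlgebra
  exact (isCommon_iff P θ).2 ((uloc_pls _ _ _).1 ((uloc (pfam P θ) n).cl hz))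

/-- The number of the common classes is positive. -/
theorem common_pos (n : ℕ) : 0 < dimAll T.W.K (IsCommon P θ n) := by
  have hnt : Nontrivial ((toH T).W.H X) := (inferInstance : Nontrivial (T.W.H X))
  let _ : Algebra (toH T).W.K P.V.K :=
    (ratRing (toH T) P.V.K (show P.V.K →+* ℂ from (stR P).s)).toAlgebra
  rw [common_eq]
  exact UU_pos _ n

end Laws

end Pool.Agent.X299
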