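import Pool.Agent.X299.DR.Cmp
import Pool.Agent.H914R2.KCorr

/-!
# De Rham-Betti classes and conjugate comparison isomorphisms
-/

open CategoryTheory AlgebraicGeometry TensorProduct Filter Topology

universe u v w

namespace Pool.Agent.X299

open Module
open Pool.Agent.H914 Pool.Agent.H914.VarClass Pool.Agent.H914.VarClass.Obj
  Pool.Agent.H914.WeilCohomology Pool.Agent.H281R3.HT Pool.Agent.TH125.Gal Pool.Agent.Y121.AH
open Pool.Agent.Y129 (pw pj PowerAction TG tateClasses CC cycRank)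
open Pool.Agent.Y133.Half (PH Sys ClassPred pwIso129)

variable {k : Type u} [Field k] {𝒱 : VarClass k} {ops : CycleOps 𝒱}
  {T : HodgeTheory ops} {V' : WeilCohomology.{u, 0} ops} {X Z : 𝒱.Obj}

section Emb

variable (T) in
lemma emR_full : Full (emR T) where
  span Z := by
    rw [eq_top_iff]
    rintro x -
    refine tmul_ind (p := fun x => x ∈ Submodule.span (CW T).K
      (Set.range ((emR T).E Z))) ?_ ?_ ?_ x
    · exact Submodule.zero_mem _
    · intro x y hx hy; exact Submodule.add_mem _ hx hy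
    · intro l a
      rw [tmul_eq]
      exact Submodule.smul_mem _ _ (Submodule.subset_span ⟨_, rfl⟩)
  tr Z a := by
    rw [emR_apply, em_tr]
    change _ = 1 ^ Z.dim * _
    rw [one_pow, one_mul]
    rfl

variable (T) in
lemma emR_cyc : CycR (emR T) := by
  intro Z j z _
  change em T.W ℂ (T.W.cl Z z) = 1 ^ j • (CW T).cl Z z
  rw [one_pow, one_smul]
  rfl

end Emb

section Range

variable {V : WeilCohomology.{u, 0} ops} {R : Rlz V' V}

/-- A class is in the image of a realisation if its products with all members of the image have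
integrals in the field of coefficients. -/
lemma mem_range_of_tr (hR : Full R) {w : V.H Z}
    (h : ∀ v, ∃ r, V.tr Z (R.E Z v * w) = R.c ^ Z.dim * R.s r) : ∃ u, R.E Z u = w := by
  have hc : R.c ^ Z.dim ≠ 0 := pow_ne_zero _ R.ne
  have huniq : ∀ r r', R.c ^ Z.dim * R.s r = R.c ^ Z.dim * R.s r' → r = r' := fun r r' h =>
    R.s.injective (mul_left_cancel₀ hc h)
  choose f hf using h
  let φ : V'.H Z →ₗ[V'.K] V'.K :=
    { toFun := f
      map_add' := fun a b => huniq _ _ (by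
        rw [← hf, map_add, add_mul, map_add, hf, hf, map_add, mul_add])
      map_smul' := fun r a => huniq _ _ (by
        rw [← hf, R.semi, smul_mul_assoc, map_smul, hf, RingHom.id_apply, smul_eq_mul,
          smul_eq_mul, map_mul]
        ring) }
  have _ : FiniteDimensional V'.K (V'.H Z) := V'.finite Z
  obtain ⟨u, hu⟩ := exists_right ((LinearMap.mul V'.K (V'.H Z)).compr₂ (V'.tr Z))
    (fun x hx => V'.nondeg x hx) φ
  refine ⟨u, ?_⟩
  rw [← sub_eq_zero]
  apply Pool.Agent.H914.nondeg_right (W := V)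
  intro y
  refine hR.ind (p := fun y => V.tr Z (y * (R.E Z u - w)) = 0) ?_ ?_ ?_ y
  · intro a
    have h1 : V'.tr Z (a * u) = f a := hu a
    rw [mul_sub, map_sub, hf, ← map_mul, hR.tr, h1, sub_self]
  · intro x y hx hy; rw [add_mul, map_add, hx, hy, add_zero]
  · intro r x hx; rw [smul_mul_assoc, map_smul, hx, smul_zero]

end Range

section Conj

variable (R : Rlz V' (CW T))

/-- The automorphisms of the complex numbers over the coefficients. -/
def Gc : Type w := ULift.{w} {σ : ℂ ≃+* ℂ // ∀ r, σ (show ℂ from R.s r) = (show ℂ from R.s r)}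

/-- The conjugate comparison isomorphism. -/
noncomputable def conj (σ : Gc.{u, w} R) : Rlz V' (CW T) :=
  Rlz.comp' (psiR T (σ.down.1 : ℂ →+* ℂ)) R

lemma conj_s (σ : Gc.{u, w} R) (r : V'.K) : (conj R σ).s r = R.s r := σ.down.2 r

lemma conj_c (σ : Gc.{u, w} R) : (conj R σ).c = (show (CW T).K from σ.down.1 (show ℂ from R.c)) :=
  one_mul _

lemma conj_E (σ : Gc.{u, w} R) (Z : 𝒱.Obj) (v : V'.H Z) :
    (conj R σ).E Z v = (psiR T (σ.down.1 : ℂ →+* ℂ)).E Z (R.E Z v) := rfl

variable {R}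

lemma conj_full (hR : Full R) (σ : Gc.{u, w} R) : Full (conj R σ) := Full.comp' (psiR_full T _) hR

lemma conj_cyc (hc : CycR R) (σ : Gc.{u, w} R) : CycR (conj R σ) := CycR.comp' (psiR_cyc T _) hc

variable (R) in
/-- The multipliers. -/
noncomputable def drC (σ : Gc.{u, w} R) : (CW T).Kˣ :=
  Units.mk0 ((conj R σ).c / R.c) (div_ne_zero (conj R σ).ne R.ne)

/-- The operators. -/
noncomputable def drE (hR : Full R) (X : 𝒱.Obj) (σ : Gc.{u, w} R) (n : ℕ) :
    (CW T).H (pw X n) ≃ₐ[(CW T).K] (CW T).H (pw X n) :=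
  cmpE hR (conj_full hR σ) (conj_s R σ) (pw X n)

lemma drE_apply (hR : Full R) (σ : Gc.{u, w} R) (n : ℕ) (v : V'.H (pw X n)) :
    drE hR X σ n (R.E _ v) = (conj R σ).E _ v := cmpE_E _ _ _ _

/-- The action of the free group. -/
theorem drAct (hR : Full R) (hc : CycR R) (X : 𝒱.Obj) :
    PowerAction (CW T) X (FreeGroup.lift (drC.{u, w} R)) (freeAct (drE.{u, w} hR X)) :=
  powerAction_free
    (fun σ _ _ _ ha => cmpE_gr hR (conj_full hR σ) (conj_s R σ) ha)
    (fun σ _ _ _ ha => cmpE_symm_gr hR (conj_full hR σ) (conj_s R σ) ha)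
    (fun σ _ a => cmpE_tr hR (conj_full hR σ) (conj_s R σ) a)
    (fun σ _ _ _ hz => cmpE_cl hR (conj_full hR σ) (conj_s R σ) hc (conj_cyc hc σ) hz)
    (fun σ n i a => cmpE_map hR (conj_full hR σ) (conj_s R σ) (pj X n i) a)

/-- The place of the de Rham-Betti classes. -/
noncomputable def drPlace (hR : Full R) (hc : CycR R) (X : 𝒱.Obj) : Place.{u, w} T X where
  V := CW T
  E := emR T
  full := emR_full T
  cyc := emR_cyc T
  emb := ⟨RingHom.id ℂ⟩
  Γ := FreeGroup (Gc.{u, w} R)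
  χ := FreeGroup.lift (drC.{u, w} R)
  ρ := freeAct (drE.{u, w} hR X)
  act := drAct hR hc X

/-- The values of a function which is right invariant under a subgroup of finite index. -/
lemma finite_range_of_inv {Γ α : Type*} [Group Γ] {Δ : Subgroup Γ} (hΔ : Δ.FiniteIndex)
    {f : Γ → α} (h : ∀ g, ∀ d ∈ Δ, f (g * d) = f g) : (Set.range f).Finite := by
  have : Finite (Γ ⧸ Δ) := Subgroup.finite_quotient_of_finiteIndex
  let F : Γ ⧸ Δ → α := fun q => f (Quotient.out q)
  refine (Set.finite_range F).subset ?_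
  rintro _ ⟨g, rfl⟩
  obtain ⟨d, hd⟩ := QuotientGroup.mk_out_eq_mul Δ g
  refine ⟨(g : Γ ⧸ Δ), ?_⟩
  change f (Quotient.out (g : Γ ⧸ Δ)) = f g
  rw [hd, h g _ d.2]

/-- **Rational classes which are fixed by a subgroup of finite index are de Rham-Betti classes**,
if the field of coefficients of the de Rham cohomology is algebraically closed. -/
theorem dr_of_tate [IsAlgClosed V'.K] (hR : Full R) {n j : ℕ} {x : T.W.H (pw X n)}
    (hx : em T.W ℂ x ∈ tateClasses (FreeGroup.lift (drC.{u, w} R)) ((CW T).gr (pw X n))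
      (freeAct (drE.{u, w} hR X) n) j) :
    ∃ v, R.E (pw X n) v = R.c ^ j • em T.W ℂ x := by
  obtain ⟨-, Δ, hΔ, h1⟩ := hx
  set d := (pw X n).dim with hd
  apply mem_range_of_tr hR
  intro v
  -- the number which should be in the field of coefficients
  have hc : R.c ^ d ≠ 0 := pow_ne_zero _ R.ne
  obtain ⟨l, hl⟩ : ∃ l : (CW T).K, l = (R.c ^ d)⁻¹ *
      (CW T).tr (pw X n) (R.E _ v * R.c ^ j • em T.W ℂ x) := ⟨_, rfl⟩
  -- the function on the group
  let f : FreeGroup (Gc.{u, w} R) → (CW T).K := fun g =>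
    (R.c ^ d)⁻¹ * R.c ^ j * (CW T).tr (pw X n) (R.E _ v *
      (((FreeGroup.lift (drC.{u, w} R) g : (CW T).Kˣ) : (CW T).K) ^ j)⁻¹ •
        freeAct (drE.{u, w} hR X) n g (em T.W ℂ x))
  have hf : (Set.range f).Finite := by
    refine finite_range_of_inv hΔ fun g δ hδ => ?_
    have h2 : freeAct (drE.{u, w} hR X) n (g * δ) (em T.W ℂ x) =
        ((FreeGroup.lift (drC.{u, w} R) δ : (CW T).Kˣ) : (CW T).K) ^ j •
          freeAct (drE.{u, w} hR X) n g (em T.W ℂ x) := by
      rw [map_mul, AlgEquiv.mul_apply, h1 δ hδ, map_smul]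
    have h3 : (((FreeGroup.lift (drC.{u, w} R) (g * δ) : (CW T).Kˣ) : (CW T).K) ^ j)⁻¹ •
        freeAct (drE.{u, w} hR X) n (g * δ) (em T.W ℂ x) =
        (((FreeGroup.lift (drC.{u, w} R) g : (CW T).Kˣ) : (CW T).K) ^ j)⁻¹ •
          freeAct (drE.{u, w} hR X) n g (em T.W ℂ x) := by
      rw [h2, smul_smul, map_mul, Units.val_mul, mul_pow, mul_inv, mul_assoc,
        inv_mul_cancel₀ (pow_ne_zero _ (Units.ne_zero _)), mul_one]
    change (R.c ^ d)⁻¹ * R.c ^ j * _ = (R.c ^ d)⁻¹ * R.c ^ j * _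
    rw [h3]
  have key : ∀ σ : Gc.{u, w} R, (show (CW T).K from σ.down.1 (show ℂ from l)) = f (FreeGroup.of σ)⁻¹ := by
    intro σ
    set y := freeAct (drE.{u, w} hR X) n (FreeGroup.of σ)⁻¹ (em T.W ℂ x) with hy
    have h2 : drE hR X σ n y = em T.W ℂ x := by
      rw [hy, map_inv, freeAct_of]
      exact (drE.{u, w} hR X σ n).apply_symm_apply _
    let P : Rlz (CW T) (CW T) := psiR T (σ.down.1 : ℂ →+* ℂ)
    have hP : ∀ l : (CW T).K, (show (CW T).K from σ.down.1 (show ℂ from l)) = P.s l := fun l => rfl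
    have hPc : P.s R.c = (conj R σ).c := (conj_c R σ).symm
    have hPt : ∀ w : (CW T).H (pw X n), P.s ((CW T).tr (pw X n) w) =
        (CW T).tr (pw X n) (P.E _ w) := fun w => (psiR_tr (T := T) (σ.down.1 : ℂ →+* ℂ) _ w).symm
    have hPx : P.E (pw X n) (em T.W ℂ x) = em T.W ℂ x := psiR_em T (σ.down.1 : ℂ →+* ℂ) x
    have hPv : P.E (pw X n) (R.E _ v) = drE hR X σ n (R.E _ v) := (drE_apply hR σ n v).symm
    have h4 : P.s ((CW T).tr (pw X n) (R.E _ v * R.c ^ j • em T.W ℂ x)) =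
        (conj R σ).c ^ j * ((conj R σ).c / R.c) ^ d * (CW T).tr (pw X n) (R.E _ v * y) := by
      rw [hPt, map_mul, P.semi, hPx, hPv, map_pow, hPc, mul_smul_comm, map_smul, ← h2, ← map_mul]
      have h5 := cmpE_tr hR (conj_full hR σ) (conj_s R σ) (R.E _ v * y)
      have h6 : (CW T).tr (pw X n) (drE hR X σ n (R.E _ v * y)) =
        ((conj R σ).c / R.c) ^ d * (CW T).tr (pw X n) (R.E _ v * y) := h5
      rw [h6, smul_eq_mul, mul_assoc]
    have h7 : ((FreeGroup.lift (drC.{u, w} R) (FreeGroup.of σ)⁻¹ : (CW T).Kˣ) : (CW T).K) =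
        ((conj R σ).c / R.c)⁻¹ := by
      rw [map_inv, FreeGroup.lift_apply_of, Units.val_inv_eq_inv_val]
      rfl
    have hne := (conj R σ).ne
    have hne' := R.ne
    rw [hP, hl, map_mul, map_inv₀, map_pow, h4, hPc]
    change _ = (R.c ^ d)⁻¹ * R.c ^ j * (CW T).tr (pw X n) (R.E _ v *
      (((FreeGroup.lift (drC.{u, w} R) (FreeGroup.of σ)⁻¹ : (CW T).Kˣ) : (CW T).K) ^ j)⁻¹ • y)
    rw [h7, mul_smul_comm, map_smul, smul_eq_mul, inv_pow, inv_inv, div_pow, div_pow]
    field_simp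
  obtain ⟨r, hr⟩ := mem_range_of_finite (R.s : V'.K →+* ℂ) (l := l) (hf.subset (by
    rintro m ⟨σ, h2, rfl⟩
    exact ⟨_, (key ⟨⟨σ, h2⟩⟩).symm⟩))
  refine ⟨r, ?_⟩
  have h3 : R.s r = l := hr
  rw [h3, hl, ← mul_assoc, mul_inv_cancel₀ hc, one_mul]

end Conj

end Pool.Agent.X299
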